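import Pool.Agent.H24.RD.Targets

set_option autoImplicit false

/-! # STK: the Kummer step -/

namespace Pool.Agent.H3.RD

open NumberField Height Finset Pool.Agent.H24.RD

theorem stk_Dv {F Ω : Type} [Field F] [Field Ω] [Algebra F Ω] {r : ℕ} {γ : Fin r → F}
    (hγ : ∀ i, γ i ≠ 0) {g g' : Ω} (h : g ∈ Dv F Ω γ) (h' : g' ∈ Dv F Ω γ) :
    g * g' ∈ Dv F Ω γ := by
  obtain ⟨h0, n, hn, x, hx⟩ := h
  obtain ⟨h0', n', hn', x', hx'⟩ := h'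
  refine ⟨mul_ne_zero h0 h0', n * n', Nat.mul_pos hn hn', fun i => x i * n' + x' i * n, ?_⟩
  rw [mul_pow, pow_mul, hx, mul_comm n n', pow_mul, hx', ← Finset.prod_pow, ← Finset.prod_pow,
    ← Finset.prod_mul_distrib]
  refine Finset.prod_congr rfl fun i _ => ?_
  have hγM : algebraMap F Ω (γ i) ≠ 0 := by
    rw [Ne, map_eq_zero]
    exact hγ i
  rw [zpow_add₀ hγM, zpow_mul, zpow_mul, zpow_natCast, zpow_natCast]

theorem pf_STK : T_SK1 → T_TOP → T_SK2 → T_STK := by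
  intro hSK1 hTOP hSK2 F Ω _ _ _ _ _ _ _ p hp r γ hγ R
  obtain ⟨C, hC⟩ := hSK1 F Ω p hp r γ hγ.1
  obtain ⟨c, hc⟩ := hTOP F Ω p hp r γ hγ
  obtain ⟨δ, n0, hδ, h1⟩ := hC (R + c + C)
  refine ⟨n0 + C + c + (R + c + C) + 2, δ, hδ, ?_⟩
  intro n m N' K' hm hmn hnR hpN hKN α hα hαδ
  obtain ⟨β, hβ, hβ0, g, hg, rfl⟩ := hα
  obtain ⟨hg0, j, hj, x, hx⟩ := id hg
  obtain ⟨β', rfl⟩ : ∃ β' : Lv F Ω γ (p ^ n * N') (p ^ m * K'), (β' : Ω) = β := ⟨⟨β, hβ⟩, rfl⟩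
  have hβ0' : β' ≠ 0 := fun h => hβ0 (by rw [h]; rfl)
  have hlev : Lev C (R + c + C) n0 p n m (m - c - C) (m - c) N' K' :=
    ⟨by omega, by omega, by omega, by omega, hmn, by omega, hpN, hKN⟩
  have h2 := h1 n m (m - c - C) (m - c) N' K' hlev (by omega) β' hβ0' g hg0
    ⟨j, ∏ i, γ i ^ x i, hj, by rw [hx, map_prod]; simp only [map_zpow₀]⟩ hαδ
  have h3 := hSK2 F Ω p hp r γ hγ.1 n m (R + c + C) N' K' (by omega) hmn (by omega) hpN hKN β' hβ0'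
    (fun h hh hht => by
      obtain ⟨h', hh', rfl⟩ := hc n m N' K' (by omega) hmn hpN hKN h hh hht
      have h4 := h2 h' hh'
      rwa [show m - c - 1 = m - 1 - c by omega] at h4)
  obtain ⟨β₁, hβ₁, hβ₁0, g₁, hg₁, he⟩ := h3
  exact ⟨β₁, hβ₁, hβ₁0, g₁ * g, stk_Dv hγ.1 hg₁ hg, by rw [he, mul_assoc]⟩

end Pool.Agent.H3.RD
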