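import Pool.Agent.H24.RD.Targets

set_option autoImplicit false

/-! # TOP: the elements of the top Kummer group are high powers -/

namespace Pool.Agent.H3.RD

open NumberField Height Finset Pool.Agent.H24.RD

theorem top_ext {F M : Type} [Field F] [Field M] [Algebra F M] {s : Set M}
    (hs : IntermediateField.adjoin F s = ⊤) {g h : M ≃ₐ[F] M} (H : ∀ x ∈ s, g x = h x) : g = h := by
  ext x
  have hx : x ∈ IntermediateField.adjoin F s := by
    rw [hs]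
    exact IntermediateField.mem_top
  induction hx using IntermediateField.adjoin_induction with
  | mem x hx => exact H x hx
  | algebraMap x => rw [AlgEquiv.commutes, AlgEquiv.commutes]
  | add x y _ _ h1 h2 => rw [map_add, map_add, h1, h2]
  | inv x _ h1 => rw [map_inv₀, map_inv₀, h1]
  | mul x y _ _ h1 h2 => rw [map_mul, map_mul, h1, h2]

theorem top_core {F M : Type} [Field F] [Field M] [Algebra F M] {p : ℕ} (hp : p.Prime) {r : ℕ}
    {γ : Fin r → F} (hγ : ∀ i, γ i ≠ 0) {c n m N' K' : ℕ} (hcm : c + 1 ≤ m) (hmn : m ≤ n)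
    (hpN : ¬ p ∣ N') (hKN : K' ∣ N') {ζ0 : M} (hζ0 : IsPrimitiveRoot ζ0 (p ^ n * N'))
    {θ0 : Fin r → M} (hθ0 : ∀ i, θ0 i ^ (p ^ m * K') = algebraMap F M (γ i))
    (hadj : IntermediateField.adjoin F {z : M | z ^ (p ^ n * N') = 1 ∨
      ∃ i, z ^ (p ^ m * K') = algebraMap F M (γ i)} = ⊤)
    (hKG : ∀ (ζ : M) (θ : Fin r → M), IsPrimitiveRoot ζ (p ^ m) →
      (∀ i, θ i ^ (p ^ m) = algebraMap F M (γ i)) → ∀ b : Fin r → ℕ,
      ∃ g ∈ AA F M γ (p ^ n * N') K', ∀ i, g (θ i) = ζ ^ (p ^ c * b i) * θ i)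
    {g : M ≃ₐ[F] M} (hg : g ∈ AA F M γ (p ^ n * N') K')
    (hgt : ∀ (y : M) (i : Fin r), y ^ (p ^ (m - 1)) = algebraMap F M (γ i) → g y = y) :
    ∃ g' ∈ AA F M γ (p ^ n * N') K', g = g' ^ (p ^ (m - 1 - c)) := by
  have hp0 : 0 < p := hp.pos
  have hN0 : 0 < N' := Nat.pos_of_ne_zero fun h => hpN (h ▸ dvd_zero p)
  have hγM : ∀ i, algebraMap F M (γ i) ≠ 0 := fun i => by
    rw [Ne, map_eq_zero]
    exact hγ i
  have hgf : ∀ y : M, (y ^ (p ^ n * N') = 1 ∨ ∃ i, y ^ K' = algebraMap F M (γ i)) → g y = y := hg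
  -- the primitive root
  have hpow : p ^ n * N' = (p ^ (n - m) * N') * p ^ m := by
    rw [mul_right_comm, ← pow_add, Nat.sub_add_cancel hmn]
  obtain ⟨ζ, hζe⟩ : ∃ ζ, ζ = ζ0 ^ (p ^ (n - m) * N') := ⟨_, rfl⟩
  have hζ : IsPrimitiveRoot ζ (p ^ m) := by
    rw [hζe]
    exact hζ0.pow (by positivity) hpow
  have hunit : ∀ ω : M, ω ^ (p ^ m) = 1 → ω ^ (p ^ n * N') = 1 := by
    intro ω hω
    rw [hpow, mul_comm, pow_mul, hω, one_pow]
  -- the roots
  obtain ⟨θ, hθe⟩ : ∃ θ : Fin r → M, θ = fun i => θ0 i ^ K' := ⟨_, rfl⟩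
  have hθ : ∀ i, θ i ^ (p ^ m) = algebraMap F M (γ i) := by
    intro i
    rw [hθe]
    simp only
    rw [← pow_mul, mul_comm]
    exact hθ0 i
  have hθn : ∀ i, θ i ≠ 0 := by
    intro i h
    have := hθ i
    rw [h, zero_pow (by positivity)] at this
    exact hγM i this.symm
  have hpm : NeZero (p ^ m) := ⟨by positivity⟩
  have hb : ∀ i, ∃ b : ℕ, g (θ i) = ζ ^ b * θ i := by
    intro i
    have h1 : (g (θ i) / θ i) ^ (p ^ m) = 1 := by
      rw [div_pow, ← map_pow, hθ, AlgEquiv.commutes, div_self (hγM i)]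
    obtain ⟨b, -, hb⟩ := hζ.eq_pow_of_pow_eq_one h1
    refine ⟨b, ?_⟩
    rw [hb, div_mul_cancel₀ _ (hθn i)]
  choose b hb using hb
  have hdvd : ∀ i, p ^ (m - 1) ∣ b i := by
    intro i
    have h1 : g (θ i ^ p) = θ i ^ p := by
      apply hgt _ i
      rw [← pow_mul, ← pow_succ', Nat.sub_add_cancel (by omega)]
      exact hθ i
    rw [map_pow, hb, mul_pow, ← pow_mul] at h1
    have h2 : ζ ^ (b i * p) = 1 := by
      have h3 : θ i ^ p ≠ 0 := pow_ne_zero _ (hθn i)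
      exact mul_right_cancel₀ h3 (by rw [h1, one_mul])
    have h3 := (hζ.pow_eq_one_iff_dvd _).1 h2
    have h4 : p ^ m = p ^ (m - 1) * p := by rw [← pow_succ, Nat.sub_add_cancel (by omega)]
    rw [h4] at h3
    exact Nat.dvd_of_mul_dvd_mul_right hp0 h3
  choose b' hb' using hdvd
  obtain ⟨g', hg', hg'θ⟩ := hKG ζ θ hζ hθ b'
  refine ⟨g', hg', ?_⟩
  have hg'f : ∀ y : M, (y ^ (p ^ n * N') = 1 ∨ ∃ i, y ^ K' = algebraMap F M (γ i)) → g' y = y := hg'
  have hg'ζ : g' ζ = ζ := hg'f ζ (Or.inl (hunit ζ hζ.pow_eq_one))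
  have hiter : ∀ (k : ℕ) (i : Fin r), (g' ^ k) (θ i) = ζ ^ (p ^ c * b' i * k) * θ i := by
    intro k i
    induction k with
    | zero => simp
    | succ k ih =>
      rw [pow_succ', AlgEquiv.mul_apply, ih, map_mul, map_pow, hg'ζ, hg'θ, ← mul_assoc, ← pow_add]
      congr 2
  obtain ⟨h, hh⟩ : ∃ h, h = g' ^ (p ^ (m - 1 - c)) := ⟨_, rfl⟩
  have hhA : h ∈ AA F M γ (p ^ n * N') K' := by
    rw [hh]
    exact pow_mem hg' _
  have hhf : ∀ y : M, (y ^ (p ^ n * N') = 1 ∨ ∃ i, y ^ K' = algebraMap F M (γ i)) → h y = y := hhA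
  rw [← hh]
  have hθh : ∀ i, g (θ i) = h (θ i) := by
    intro i
    rw [hb, hh, hiter]
    congr 2
    rw [hb' i]
    have h4 : p ^ (m - 1) = p ^ c * p ^ (m - 1 - c) := by
      rw [← pow_add]
      congr 1
      omega
    rw [h4]
    ring
  apply top_ext hadj
  rintro z (hz | ⟨i, hz⟩)
  · rw [hgf z (Or.inl hz), hhf z (Or.inl hz)]
  · have hz0 : z ≠ 0 := by
      intro h0
      rw [h0] at hz
      have hK0 : K' ≠ 0 := fun h => by
        rw [h] at hKN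
        exact hN0.ne' (zero_dvd_iff.1 hKN)
      rw [zero_pow (by positivity)] at hz
      exact hγM i hz.symm
    have hhz : h z ≠ 0 := by
      rw [Ne, map_eq_zero]
      exact hz0
    -- `z ^ K'`
    have h1 : (g z / h z) ^ K' = 1 := by
      obtain ⟨ω, hω⟩ : ∃ ω, ω = z ^ K' / θ i := ⟨_, rfl⟩
      have hω1 : ω ^ (p ^ m) = 1 := by
        rw [hω, div_pow, ← pow_mul, mul_comm K', hz, hθ, div_self (hγM i)]
      have hzω : z ^ K' = ω * θ i := by rw [hω, div_mul_cancel₀ _ (hθn i)]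
      have e1 : g (z ^ K') = h (z ^ K') := by
        rw [hzω, map_mul, map_mul, hgf ω (Or.inl (hunit ω hω1)), hhf ω (Or.inl (hunit ω hω1)),
          hθh]
      rw [div_pow, ← map_pow, ← map_pow, e1, div_self]
      rw [map_pow]
      exact pow_ne_zero _ hhz
    have h2 : (g z / h z) ^ (p ^ m) = 1 := by
      have e1 : (z ^ (p ^ m)) ^ K' = algebraMap F M (γ i) := by rw [← pow_mul, hz]
      have e2 : g (z ^ (p ^ m)) = h (z ^ (p ^ m)) := by
        rw [hgf _ (Or.inr ⟨i, e1⟩), hhf _ (Or.inr ⟨i, e1⟩)]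
      rw [div_pow, ← map_pow, ← map_pow, e2, div_self]
      rw [map_pow]
      exact pow_ne_zero _ hhz
    have hcop : Nat.Coprime K' (p ^ m) := by
      apply Nat.Coprime.pow_right
      refine Nat.Coprime.symm ((Nat.Prime.coprime_iff_not_dvd hp).2 fun h => hpN (h.trans hKN))
    have h3 : g z / h z = 1 := by
      have h4 := orderOf_dvd_of_pow_eq_one h1
      have h5 := orderOf_dvd_of_pow_eq_one h2
      have h6 := Nat.dvd_gcd h4 h5
      rw [hcop.gcd_eq_one, Nat.dvd_one, orderOf_eq_one_iff] at h6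
      exact h6
    exact (div_eq_one_iff_eq hhz).1 h3

theorem pf_TOP : T_LVB → T_KG → T_TOP := by
  intro hLVB hKG F Ω _ _ _ _ _ _ p hp r γ hγ
  obtain ⟨c, hc⟩ := hKG F Ω p hp r γ hγ
  refine ⟨c, fun n m N' K' hcm hmn hpN hKN g hg hgt => ?_⟩
  have hN0 : 0 < N' := Nat.pos_of_ne_zero fun h => hpN (h ▸ dvd_zero p)
  have hK0 : 0 < K' := Nat.pos_of_dvd_of_pos hKN hN0
  have hp0 : 0 < p := hp.pos
  obtain ⟨-, -, ⟨ζ0, hζ0⟩, hθ, hadj, -⟩ := hLVB F Ω r γ hγ.1 (p ^ n * N') (p ^ m * K')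
    (by positivity) (by positivity)
  choose θ0 hθ0 using hθ
  exact top_core hp hγ.1 hcm hmn hpN hKN hζ0 hθ0 hadj
    (fun ζ θ h1 h2 b => hc n m N' K' hmn hpN hKN ζ θ h1 h2 b) hg hgt

end Pool.Agent.H3.RD
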