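import Pool.Agent.H91.RD.Targets

/-!
# MP_609556_an: general lemmas for the comparison modules (SH, GC, OGC, ODD)
-/

open MeasureTheory Set Filter Topology Metric
open Pool.Agent.H29.TF (hk P)

namespace Pool.Agent.H3.RD

open Pool.Agent.H91.RD

variable {N : ℕ}

/-- comparison of heat kernels at comparable times -/
theorem hk_le_of_mem {t1 t2 τ : ℝ} (h1 : 0 < t1) (h12 : t1 ≤ τ) (h2 : τ ≤ t2) (w : E N) :
    hk τ w ≤ ((4 * Real.pi * t1) ^ (-(Module.finrank ℝ (E N) : ℝ) / 2) /
      (4 * Real.pi * t2) ^ (-(Module.finrank ℝ (E N) : ℝ) / 2)) * hk t2 w := by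
  have hpi := Real.pi_pos
  have hτ : 0 < τ := h1.trans_le h12
  have ht2 : 0 < t2 := hτ.trans_le h2
  unfold hk
  have hp : 0 < (4 * Real.pi * t2) ^ (-(Module.finrank ℝ (E N) : ℝ) / 2) := by positivity
  rw [← mul_assoc, div_mul_cancel₀ _ hp.ne']
  apply mul_le_mul
  · apply Real.rpow_le_rpow_of_nonpos (by positivity)
    · exact mul_le_mul_of_nonneg_left h12 (by positivity)
    · have : (0 : ℝ) ≤ (Module.finrank ℝ (E N) : ℝ) := by positivity
      linarith
  · apply Real.exp_le_exp.2
    rw [neg_div, neg_div, neg_le_neg_iff]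
    apply div_le_div_of_nonneg_left (by positivity) (by positivity)
    linarith
  · positivity
  · positivity

/-- measurability of `(q, y) ↦ P (r - q) (H q) y` -/
theorem meas_P (r : ℝ) {H : ℝ → E N → ℝ} (hH : Measurable (Function.uncurry H)) :
    StronglyMeasurable (fun p : ℝ × E N => P (r - p.1) (H p.1) p.2) := by
  unfold P
  have : Measurable (Function.uncurry (fun (p : ℝ × E N) (w : E N) =>
      hk (r - p.1) (p.2 - w) * H p.1 w)) := by
    apply Measurable.mul
    · have h1 : Measurable (fun p : (ℝ × E N) × E N => ((r - p.1.1, p.1.2 - p.2) : ℝ × E N)) := by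
        fun_prop
      exact (Pool.Agent.H29.TF.measurable_hk_uncurry (V := E N)).comp h1
    · have h1 : Measurable (fun p : (ℝ × E N) × E N => ((p.1.1, p.2) : ℝ × E N)) := by
        fun_prop
      exact hH.comp h1
  exact StronglyMeasurable.integral_prod_right this.stronglyMeasurable

theorem ae_snd_mem {S : Set ℝ} (hS : MeasurableSet S) :
    ∀ᵐ p : E N × ℝ ∂(volume.prod (volume.restrict S)), p.2 ∈ S := by
  have : (volume : Measure (E N)).prod (volume.restrict S) =
      ((volume : Measure (E N)).prod (volume : Measure ℝ)).restrict (univ ×ˢ S) := by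
    rw [← Measure.prod_restrict, Measure.restrict_univ]
  rw [this]
  filter_upwards [ae_restrict_mem (MeasurableSet.univ.prod hS)] with p hp
  exact hp.2

/-- Fubini: the heat semigroup applied to a Duhamel term -/
theorem fub {τ s r M C : ℝ} (hτ : 0 < τ) (hsr : s ≤ r) {H : ℝ → E N → ℝ}
    (hH : Measurable (Function.uncurry H)) (hM : ∀ q y, |H q y| ≤ M) {ω : ℝ → ℝ}
    (hω : Measurable ω) (hC : ∀ q ∈ Ioo s r, |ω q| ≤ C) (x : E N) :
    P τ (fun y => ∫ q in s..r, ω q * P (r - q) (H q) y) x =
      ∫ q in s..r, ω q * P (τ + (r - q)) (H q) x := by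
  have e1 : ∀ y : E N, (∫ q in s..r, ω q * P (r - q) (H q) y) =
      ∫ q in Ioo s r, ω q * P (r - q) (H q) y := by
    intro y
    rw [intervalIntegral.integral_of_le hsr, integral_Ioc_eq_integral_Ioo]
  have e2 : (∫ q in s..r, ω q * P (τ + (r - q)) (H q) x) =
      ∫ q in Ioo s r, ω q * P (τ + (r - q)) (H q) x := by
    rw [intervalIntegral.integral_of_le hsr, integral_Ioc_eq_integral_Ioo]
  rw [e2]
  simp_rw [e1]
  have hm : AEStronglyMeasurable (fun p : E N × ℝ =>
      hk τ (x - p.1) * (ω p.2 * P (r - p.2) (H p.2) p.1))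
      (volume.prod (volume.restrict (Ioo s r))) := by
    apply AEStronglyMeasurable.mul
    · exact Continuous.aestronglyMeasurable (by fun_prop)
    · apply AEStronglyMeasurable.mul
      · exact (hω.comp measurable_snd).aestronglyMeasurable
      · have h1 := (meas_P r hH).measurable
        have h2 : Measurable (fun p : E N × ℝ => ((p.2, p.1) : ℝ × E N)) := by fun_prop
        exact (h1.comp h2).aestronglyMeasurable
  have hM0 : 0 ≤ M := (abs_nonneg _).trans (hM 0 0)
  have hint : Integrable (fun p : E N × ℝ =>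
      hk τ (x - p.1) * (ω p.2 * P (r - p.2) (H p.2) p.1))
      (volume.prod (volume.restrict (Ioo s r))) := by
    have hb : Integrable (fun p : E N × ℝ => hk τ (x - p.1) * (C * M))
        (volume.prod (volume.restrict (Ioo s r))) :=
      (Pool.Agent.H29.TF.integrable_hk_sub hτ x).mul_prod (integrable_const (C * M))
    refine hb.mono' hm ?_
    filter_upwards [ae_snd_mem (N := N) (measurableSet_Ioo (a := s) (b := r))] with p hp
    rw [norm_mul, Real.norm_of_nonneg (Pool.Agent.H29.TF.hk_nonneg hτ.le _)]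
    apply mul_le_mul_of_nonneg_left _ (Pool.Agent.H29.TF.hk_nonneg hτ.le _)
    rw [norm_mul, Real.norm_eq_abs, Real.norm_eq_abs]
    exact mul_le_mul (hC _ hp) (Pool.Agent.H29.TF.abs_P_le (sub_pos.2 hp.2) (hM _) _)
      (abs_nonneg _) ((abs_nonneg _).trans (hC _ hp))
  calc P τ (fun y => ∫ q in Ioo s r, ω q * P (r - q) (H q) y) x
      = ∫ y, ∫ q in Ioo s r, hk τ (x - y) * (ω q * P (r - q) (H q) y) := by
        unfold P
        congr 1; ext y
        rw [← integral_const_mul]
    _ = ∫ q in Ioo s r, ∫ y, hk τ (x - y) * (ω q * P (r - q) (H q) y) :=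
        integral_integral_swap hint
    _ = ∫ q in Ioo s r, ω q * P (τ + (r - q)) (H q) x := by
        apply setIntegral_congr_fun measurableSet_Ioo
        intro q hq
        simp only
        have hHq : Measurable (H q) := hH.of_uncurry_left
        rw [← Pool.Agent.H29.TF.P_P hτ (sub_pos.2 hq.2) hHq.aestronglyMeasurable (hM q) x,
          ← Pool.Agent.H29.TF.P_const_mul]
        rfl

/-- continuity of `q ↦ P (r - q) (h q) x` at times `q < r` -/
theorem contAt_P {r q0 M : ℝ} (hq : q0 < r) {h : ℝ → E N → ℝ}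
    (hm : ∀ᶠ q in 𝓝 q0, AEStronglyMeasurable (h q) volume)
    (hM : ∀ᶠ q in 𝓝 q0, ∀ y, |h q y| ≤ M) (hc : ∀ y, ContinuousAt (fun q => h q y) q0) (x : E N) :
    ContinuousAt (fun q => P (r - q) (h q) x) q0 := by
  unfold P
  have h1 : 0 < (r - q0) / 2 := by linarith
  have hM0 : 0 ≤ M := by
    obtain ⟨q, hq⟩ := hM.exists
    exact (abs_nonneg _).trans (hq 0)
  apply continuousAt_of_dominated (bound := fun y =>
    ((4 * Real.pi * ((r - q0) / 2)) ^ (-(Module.finrank ℝ (E N) : ℝ) / 2) /
      (4 * Real.pi * (2 * (r - q0))) ^ (-(Module.finrank ℝ (E N) : ℝ) / 2)) *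
        hk (2 * (r - q0)) (x - y) * M)
  · filter_upwards [hm] with q hq
    exact (Continuous.aestronglyMeasurable (by fun_prop)).mul hq
  · have hn : ∀ᶠ q in 𝓝 q0, q ∈ Ioo (q0 - (r - q0)) (q0 + (r - q0) / 2) :=
      Ioo_mem_nhds (by linarith) (by linarith)
    filter_upwards [hM, hn] with q hq hq2
    refine Eventually.of_forall fun y => ?_
    have hpos : 0 < r - q := by linarith [hq2.2]
    rw [norm_mul, Real.norm_of_nonneg (Pool.Agent.H29.TF.hk_nonneg hpos.le _), Real.norm_eq_abs]
    apply mul_le_mul _ (hq y) (abs_nonneg _)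
    · have hpi := Real.pi_pos
      have h3 : 0 < 2 * (r - q0) := by linarith
      have := Pool.Agent.H29.TF.hk_nonneg h3.le (x - y)
      positivity
    · exact hk_le_of_mem h1 (by linarith [hq2.2]) (by linarith [hq2.1]) _
  · have h3 : 0 < 2 * (r - q0) := by linarith
    exact ((Pool.Agent.H29.TF.integrable_hk_sub h3 x).const_mul _).mul_const M
  · refine Eventually.of_forall fun y => ?_
    apply ContinuousAt.mul _ (hc y)
    unfold hk
    have hne : 4 * (r - q0) ≠ 0 := by linarith
    have hne2 : 4 * Real.pi * (r - q0) ≠ 0 := by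
      have := Real.pi_pos
      have h5 : 0 < r - q0 := by linarith
      positivity
    apply ContinuousAt.mul
    · refine ContinuousAt.rpow_const (f := fun q => 4 * Real.pi * (r - q)) ?_ (Or.inl hne2)
      fun_prop
    · apply Real.continuous_exp.continuousAt.comp
      exact ContinuousAt.div (by fun_prop) (by fun_prop) hne

/-- a Gronwall inequality for bounded measurable functions -/
theorem gronwall {s t κ Y0 B : ℝ} (hst : s < t) (hκ : 0 ≤ κ) {X : ℝ → ℝ}
    (hX : AEStronglyMeasurable X (volume.restrict (Ioo s t))) (hB : ∀ r ∈ Ioo s t, |X r| ≤ B)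
    (h : ∀ r ∈ Ioc s t, X r ≤ Y0 + κ * ∫ q in s..r, X q) :
    X t ≤ Y0 * Real.exp (κ * (t - s)) := by
  have hint : IntervalIntegrable X volume s t := by
    rw [intervalIntegrable_iff_integrableOn_Ioc_of_le hst.le, integrableOn_Ioc_iff_integrableOn_Ioo]
    refine Integrable.mono' (integrable_const B) hX ?_
    filter_upwards [ae_restrict_mem measurableSet_Ioo] with r hr
    exact hB r hr
  have hsub : ∀ r ∈ Icc s t, IntervalIntegrable X volume s r := fun r hr =>
    hint.mono_set (by rw [uIcc_of_le hr.1, uIcc_of_le hst.le]; exact Icc_subset_Icc_right hr.2)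
  set V : ℝ → ℝ := fun r => Y0 + κ * ∫ q in s..r, X q with hV
  have hVc : ContinuousOn V (Icc s t) := by
    have := intervalIntegral.continuousOn_primitive_interval (μ := volume) (f := X) (a := s) (b := t)
      (by rw [uIcc_of_le hst.le, integrableOn_Icc_iff_integrableOn_Ioc]
          exact (intervalIntegrable_iff_integrableOn_Ioc_of_le hst.le).1 hint)
    rw [uIcc_of_le hst.le] at this
    exact continuousOn_const.add (continuousOn_const.mul this)
  have hVi : IntervalIntegrable V volume s t := by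
    apply ContinuousOn.intervalIntegrable
    rwa [uIcc_of_le hst.le]
  set W : ℝ → ℝ := fun r => Y0 + κ * ∫ q in s..r, V q with hW
  have hVW : ∀ r ∈ Icc s t, V r ≤ W r := by
    intro r hr
    simp only [hV, hW]
    have : (∫ q in s..r, X q) ≤ ∫ q in s..r, V q := by
      apply intervalIntegral.integral_mono_on_of_le_Ioo hr.1 (hsub r hr)
      · apply hVi.mono_set
        rw [uIcc_of_le hr.1, uIcc_of_le hst.le]; exact Icc_subset_Icc_right hr.2
      · intro q hq
        exact h q ⟨hq.1, hq.2.le.trans hr.2⟩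
    have := mul_le_mul_of_nonneg_left this hκ
    linarith
  have hWc : ContinuousOn W (Icc s t) := by
    have := intervalIntegral.continuousOn_primitive_interval (μ := volume) (f := V) (a := s) (b := t)
      (by rw [uIcc_of_le hst.le, integrableOn_Icc_iff_integrableOn_Ioc]
          exact (intervalIntegrable_iff_integrableOn_Ioc_of_le hst.le).1 hVi)
    rw [uIcc_of_le hst.le] at this
    exact continuousOn_const.add (continuousOn_const.mul this)
  have hWd : ∀ r ∈ Ioo s t, HasDerivAt W (κ * V r) r := by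
    intro r hr
    apply HasDerivAt.const_add
    apply HasDerivAt.const_mul
    apply intervalIntegral.integral_hasDerivAt_right
    · apply hVi.mono_set
      rw [uIcc_of_le hr.1.le, uIcc_of_le hst.le]; exact Icc_subset_Icc_right hr.2.le
    · exact (hVc.mono Ioo_subset_Icc_self).stronglyMeasurableAtFilter isOpen_Ioo r hr
    · exact (hVc r ⟨hr.1.le, hr.2.le⟩).continuousAt (Icc_mem_nhds hr.1 hr.2)
  have hZ : AntitoneOn (fun r => Real.exp (-(κ * (r - s))) * W r) (Icc s t) := by
    apply antitoneOn_of_hasDerivWithinAt_nonpos (convex_Icc s t)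
      (f' := fun r => Real.exp (-(κ * (r - s))) * (-κ) * W r +
        Real.exp (-(κ * (r - s))) * (κ * V r))
    · exact ContinuousOn.mul (by fun_prop) hWc
    · intro r hr
      rw [interior_Icc] at hr ⊢
      have h1 : HasDerivAt (fun r => Real.exp (-(κ * (r - s))))
          (Real.exp (-(κ * (r - s))) * (-κ)) r := by
        apply HasDerivAt.exp
        have h2 : HasDerivAt (fun r => κ * (r - s)) κ r := by
          simpa using ((hasDerivAt_id r).sub_const s).const_mul κ
        exact h2.fun_neg
      exact (h1.mul (hWd r hr)).hasDerivWithinAt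
    · intro r hr
      rw [interior_Icc] at hr
      have h1 := hVW r ⟨hr.1.le, hr.2.le⟩
      have h2 : 0 ≤ Real.exp (-(κ * (r - s))) := (Real.exp_pos _).le
      have h3 := mul_le_mul_of_nonneg_left h1 (mul_nonneg h2 hκ)
      nlinarith
  have hend := hZ (left_mem_Icc.2 hst.le) (right_mem_Icc.2 hst.le) hst.le
  simp only [sub_self, mul_zero, neg_zero, Real.exp_zero, one_mul] at hend
  have hWs : W s = Y0 := by simp [hW]
  rw [hWs] at hend
  have hXt : X t ≤ W t := (h t ⟨hst, le_rfl⟩).trans (hVW t ⟨hst.le, le_rfl⟩)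
  have hexp : 0 < Real.exp (κ * (t - s)) := Real.exp_pos _
  have h6 : W t = Real.exp (κ * (t - s)) * (Real.exp (-(κ * (t - s))) * W t) := by
    rw [← mul_assoc, ← Real.exp_add]; simp
  rw [h6] at hXt
  calc X t ≤ _ := hXt
    _ ≤ Real.exp (κ * (t - s)) * Y0 := mul_le_mul_of_nonneg_left hend hexp.le
    _ = _ := mul_comm _ _

/-- truncation in time of a function which is continuous on `(s, t] × ℝ^N` -/
noncomputable def tr (s t : ℝ) (h : ℝ → E N → ℝ) : ℝ → E N → ℝ :=
  fun q y => (Ioc s t ×ˢ (univ : Set (E N))).indicator (fun p : ℝ × E N => h p.1 p.2) (q, y)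

theorem tr_eq {s t : ℝ} (h : ℝ → E N → ℝ) {q : ℝ} (hq : q ∈ Ioc s t) : tr s t h q = h q := by
  funext y
  unfold tr
  rw [indicator_of_mem]
  exact ⟨hq, mem_univ _⟩

theorem meas_tr {s t : ℝ} {h : ℝ → E N → ℝ}
    (hc : ContinuousOn (fun p : ℝ × E N => h p.1 p.2) (Ioc s t ×ˢ univ)) :
    Measurable (Function.uncurry (tr s t h)) := by
  classical
  have := hc.measurable_piecewise (g := fun _ => (0 : ℝ)) continuousOn_const
    (measurableSet_Ioc.prod MeasurableSet.univ)
  have e : Function.uncurry (tr s t h) = (Ioc s t ×ˢ (univ : Set (E N))).indicator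
      (fun p : ℝ × E N => h p.1 p.2) := by
    ext p; rfl
  rw [e, ← piecewise_eq_indicator]
  exact this

theorem tr_bdd {s t M : ℝ} {h : ℝ → E N → ℝ} (hM0 : 0 ≤ M)
    (hM : ∀ r ∈ Ioc s t, ∀ x, |h r x| ≤ M) (q : ℝ) (y : E N) : |tr s t h q y| ≤ M := by
  unfold tr
  by_cases hq : (q, y) ∈ Ioc s t ×ˢ (univ : Set (E N))
  · rw [indicator_of_mem hq]; exact hM q hq.1 y
  · rw [indicator_of_notMem hq]; simpa using hM0

end Pool.Agent.H3.RD
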