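import Pool.Agent.H3.RD.SH

/-!
# MP_609556_an: common core of the modules GC and OGC
-/

open MeasureTheory Set Filter Topology Metric
open Pool.Agent.H29.TF (hk P)

namespace Pool.Agent.H3.RD

open Pool.Agent.H91.RD

variable {N : ℕ}

theorem gronwall_exp {s t κ Λ Y0 B : ℝ} (hst : s < t) (hκ : 0 ≤ κ) {Y : ℝ → ℝ}
    (hY : AEStronglyMeasurable Y (volume.restrict (Ioo s t))) (hB : ∀ r ∈ Ioo s t, |Y r| ≤ B)
    (h : ∀ r ∈ Ioc s t, Y r ≤ Real.exp (-(Λ * (r - s))) * Y0 +
      ∫ q in s..r, κ * Real.exp (-(Λ * (r - q))) * Y q) :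
    Y t ≤ Real.exp ((κ - Λ) * (t - s)) * Y0 := by
  have hB0 : 0 ≤ B := by
    have := hB ((s + t) / 2) ⟨by linarith, by linarith⟩
    exact (abs_nonneg _).trans this
  have key := gronwall (s := s) (t := t) (κ := κ) (Y0 := Y0)
    (B := Real.exp (|Λ| * (t - s)) * B) hst hκ
    (X := fun r => Real.exp (Λ * (r - s)) * Y r)
    ((Continuous.aestronglyMeasurable (by fun_prop)).mul hY) ?_ ?_
  · have hexp : 0 < Real.exp (-(Λ * (t - s))) := Real.exp_pos _
    have := mul_le_mul_of_nonneg_left key hexp.le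
    have e1 : Real.exp (-(Λ * (t - s))) * (Real.exp (Λ * (t - s)) * Y t) = Y t := by
      rw [← mul_assoc, ← Real.exp_add]; simp
    have e2 : Real.exp (-(Λ * (t - s))) * (Y0 * Real.exp (κ * (t - s))) =
        Real.exp ((κ - Λ) * (t - s)) * Y0 := by
      have : (κ - Λ) * (t - s) = -(Λ * (t - s)) + κ * (t - s) := by ring
      rw [this, Real.exp_add]; ring
    rw [e1, e2] at this
    exact this
  · intro r hr
    rw [abs_mul, abs_of_pos (Real.exp_pos _)]
    apply mul_le_mul _ (hB r hr) (abs_nonneg _) (Real.exp_pos _).le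
    apply Real.exp_le_exp.2
    have h1 : Λ * (r - s) ≤ |Λ| * (r - s) :=
      mul_le_mul_of_nonneg_right (le_abs_self Λ) (by linarith [hr.1])
    have h2 : |Λ| * (r - s) ≤ |Λ| * (t - s) :=
      mul_le_mul_of_nonneg_left (by linarith [hr.2]) (abs_nonneg Λ)
    linarith
  · intro r hr
    have hexp : 0 < Real.exp (Λ * (r - s)) := Real.exp_pos _
    have h1 := mul_le_mul_of_nonneg_left (h r hr) hexp.le
    refine h1.trans (le_of_eq ?_)
    rw [mul_add, ← mul_assoc, ← Real.exp_add]
    have e0 : Λ * (r - s) + -(Λ * (r - s)) = 0 := by ring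
    rw [e0, Real.exp_zero, one_mul]
    congr 1
    rw [← intervalIntegral.integral_const_mul, ← intervalIntegral.integral_const_mul]
    apply intervalIntegral.integral_congr
    intro q _
    simp only
    have e1 : Λ * (q - s) = Λ * (r - s) + -(Λ * (r - q)) := by ring
    rw [e1, Real.exp_add]
    ring

/-- measurability and bound of a Duhamel term -/
theorem duh_term {s r M C : ℝ} (hsr : s ≤ r) {H : ℝ → E N → ℝ}
    (hH : Measurable (Function.uncurry H)) (hM : ∀ q y, |H q y| ≤ M) {ω : ℝ → ℝ}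
    (hω : Measurable ω) (hC : ∀ q ∈ Ioo s r, |ω q| ≤ C) :
    AEStronglyMeasurable (fun y => ∫ q in s..r, ω q * P (r - q) (H q) y) volume ∧
      ∀ y, |∫ q in s..r, ω q * P (r - q) (H q) y| ≤ C * M * (r - s) := by
  have hM0 : 0 ≤ M := (abs_nonneg _).trans (hM 0 0)
  have e1 : ∀ y : E N, (∫ q in s..r, ω q * P (r - q) (H q) y) =
      ∫ q in Ioo s r, ω q * P (r - q) (H q) y := by
    intro y
    rw [intervalIntegral.integral_of_le hsr, integral_Ioc_eq_integral_Ioo]
  constructor
  · simp_rw [e1]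
    have h1 : StronglyMeasurable (Function.uncurry (fun (y : E N) (q : ℝ) =>
        ω q * P (r - q) (H q) y)) := by
      apply Measurable.stronglyMeasurable
      apply Measurable.mul
      · exact hω.comp measurable_snd
      · have h2 := (meas_P r hH).measurable
        have h3 : Measurable (fun p : E N × ℝ => ((p.2, p.1) : ℝ × E N)) := by fun_prop
        exact h2.comp h3
    exact (h1.integral_prod_right (ν := volume.restrict (Ioo s r))).aestronglyMeasurable
  · intro y
    rw [e1, ← Real.norm_eq_abs]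
    have := norm_setIntegral_le_of_norm_le_const (μ := (volume : Measure ℝ)) (s := Ioo s r)
      (f := fun q => ω q * P (r - q) (H q) y) (C := C * M) (by simp) ?_
    · refine this.trans (le_of_eq ?_)
      rw [Real.volume_real_Ioo_of_le hsr]
    · intro q hq
      rw [norm_mul, Real.norm_eq_abs, Real.norm_eq_abs]
      exact mul_le_mul (hC _ hq) (Pool.Agent.H29.TF.abs_P_le (sub_pos.2 hq.2) (hM _) _)
        (abs_nonneg _) ((abs_nonneg _).trans (hC _ hq))

/-- the heat semigroup applied to the right side of Duhamel's formula -/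
theorem appl {τ s r M C A : ℝ} (hτ : 0 < τ) (hsr : s < r) {g : E N → ℝ} (hg : Measurable g)
    (hgM : ∀ y, |g y| ≤ M) {H : ℝ → E N → ℝ}
    (hH : Measurable (Function.uncurry H)) (hM : ∀ q y, |H q y| ≤ M) {ω : ℝ → ℝ}
    (hω : Measurable ω) (hC : ∀ q ∈ Ioo s r, |ω q| ≤ C) (x : E N) :
    Integrable (fun y => hk τ (x - y) *
      (A * P (r - s) g y + ∫ q in s..r, ω q * P (r - q) (H q) y)) ∧
    P τ (fun y => A * P (r - s) g y + ∫ q in s..r, ω q * P (r - q) (H q) y) x =
      A * P (τ + (r - s)) g x + ∫ q in s..r, ω q * P (τ + (r - q)) (H q) x := by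
  have hrs : 0 < r - s := sub_pos.2 hsr
  have h1 : Integrable (fun y => hk τ (x - y) * P (r - s) g y) :=
    Pool.Agent.H29.TF.integrable_hk_mul hτ
      (Pool.Agent.H29.TF.aesm_P hg.aestronglyMeasurable)
      (fun y => Pool.Agent.H29.TF.abs_P_le hrs hgM y) x
  have h1' : Integrable (fun y => hk τ (x - y) * (A * P (r - s) g y)) := by
    refine (h1.const_mul A).congr (Eventually.of_forall fun y => ?_)
    ring
  obtain ⟨h2, h3⟩ := duh_term hsr.le hH hM hω hC
  have h4 : Integrable (fun y => hk τ (x - y) * ∫ q in s..r, ω q * P (r - q) (H q) y) :=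
    Pool.Agent.H29.TF.integrable_hk_mul hτ h2 h3 x
  constructor
  · refine (h1'.add h4).congr (Eventually.of_forall fun y => ?_)
    simp only [Pi.add_apply]
    ring
  · rw [Pool.Agent.H29.TF.P_add x h1' h4, Pool.Agent.H29.TF.P_const_mul,
      Pool.Agent.H29.TF.P_P hτ hrs hg.aestronglyMeasurable hgM,
      fub hτ hsr.le hH hM hω hC x]

theorem duh_int {s r M C : ℝ} (hsr : s ≤ r) {H : ℝ → E N → ℝ}
    (hH : Measurable (Function.uncurry H)) (hM : ∀ q y, |H q y| ≤ M) {ω : ℝ → ℝ}
    (hω : Measurable ω) (hC : ∀ q ∈ Ioo s r, |ω q| ≤ C) (y : E N) :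
    IntervalIntegrable (fun q => ω q * P (r - q) (H q) y) volume s r := by
  rw [intervalIntegrable_iff_integrableOn_Ioc_of_le hsr,
    integrableOn_Ioc_iff_integrableOn_Ioo]
  have h1 : Measurable (fun q : ℝ => ω q * P (r - q) (H q) y) := by
    apply hω.mul
    have h2 := (meas_P r hH).measurable
    have h3 : Measurable (fun q : ℝ => ((q, y) : ℝ × E N)) := by fun_prop
    exact h2.comp h3
  refine Integrable.mono' (integrable_const (C * M)) h1.aestronglyMeasurable ?_
  filter_upwards [ae_restrict_mem measurableSet_Ioo] with q hq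
  rw [norm_mul, Real.norm_eq_abs, Real.norm_eq_abs]
  exact mul_le_mul (hC _ hq) (Pool.Agent.H29.TF.abs_P_le (sub_pos.2 hq.2) (hM _) _)
    (abs_nonneg _) ((abs_nonneg _).trans (hC _ hq))

theorem exp_bd {s r Λ : ℝ} (q : ℝ) (hq : q ∈ Ioo s r) :
    Real.exp (-(Λ * (r - q))) ≤ Real.exp (|Λ| * (r - s)) := by
  apply Real.exp_le_exp.2
  have h1 : -(Λ * (r - q)) ≤ |Λ| * (r - q) := by
    have := mul_le_mul_of_nonneg_right (neg_le_abs Λ) (sub_pos.2 hq.2).le
    linarith
  have h2 : |Λ| * (r - q) ≤ |Λ| * (r - s) :=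
    mul_le_mul_of_nonneg_left (by linarith [hq.1]) (abs_nonneg Λ)
  linarith

/-- the right side of the comparison inequality -/
noncomputable def RR (Λ κ s t : ℝ) (v : ℝ → E N → ℝ) (r : ℝ) (y : E N) : ℝ :=
  Real.exp (-(Λ * (r - s))) * P (r - s) (v s) y +
    ∫ q in s..r, κ * Real.exp (-(Λ * (r - q))) * P (r - q) (tr s t v q) y

theorem core {Λ κ M s t : ℝ} (hst : s < t) (hκ : 0 ≤ κ) {v : ℝ → E N → ℝ}
    (hvm : Measurable (v s)) (hvM : ∀ r ∈ Icc s t, ∀ x, |v r x| ≤ M)
    (hvc : ContinuousOn (fun p : ℝ × E N => v p.1 p.2) (Ioc s t ×ˢ univ)) (x : E N)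
    (hA : ∀ r ∈ Ioo s t, P (t - r) (v r) x ≤ P (t - r) (RR Λ κ s t v r) x)
    (hB : v t x ≤ RR Λ κ s t v t x) :
    v t x ≤ Real.exp ((κ - Λ) * (t - s)) * P (t - s) (v s) x := by
  have hM0 : 0 ≤ M := (abs_nonneg _).trans (hvM s ⟨le_rfl, hst.le⟩ 0)
  have hHm : Measurable (Function.uncurry (tr s t v)) := meas_tr hvc
  have hHb := tr_bdd (N := N) hM0 (fun r hr x => hvM r ⟨hr.1.le, hr.2⟩ x)
  set Y : ℝ → ℝ := fun r => if r < t then P (t - r) (v r) x else v t x with hY
  have hYlt : ∀ r, r < t → Y r = P (t - r) (v r) x := fun r hr => by simp only [hY, if_pos hr]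
  have hYt : Y t = v t x := by simp only [hY, lt_irrefl, if_false]
  rw [← hYt]
  apply gronwall_exp (B := M) hst hκ
  · have h1 : Measurable (fun q : ℝ => P (t - q) (tr s t v q) x) := by
      have h2 := (meas_P t hHm).measurable
      have h3 : Measurable (fun q : ℝ => ((q, x) : ℝ × E N)) := by fun_prop
      exact h2.comp h3
    refine h1.aestronglyMeasurable.congr ?_
    filter_upwards [ae_restrict_mem measurableSet_Ioo] with q hq
    rw [hYlt q hq.2, tr_eq v ⟨hq.1, hq.2.le⟩]
  · intro r hr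
    rw [hYlt r hr.2]
    exact Pool.Agent.H29.TF.abs_P_le (sub_pos.2 hr.2) (hvM r ⟨hr.1.le, hr.2.le⟩) x
  · intro r hr
    rcases eq_or_lt_of_le hr.2 with h | h
    · subst h
      rw [hYt]
      refine hB.trans (le_of_eq ?_)
      unfold RR
      congr 1
      apply integral_congr_Ioo' hst.le
      intro q hq
      simp only
      rw [hYlt q hq.2, tr_eq v ⟨hq.1, hq.2.le⟩]
    · rw [hYlt r h]
      refine (hA r ⟨hr.1, h⟩).trans (le_of_eq ?_)
      have hap := (appl (A := Real.exp (-(Λ * (r - s)))) (C := κ * Real.exp (|Λ| * (r - s)))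
        (ω := fun q => κ * Real.exp (-(Λ * (r - q)))) (sub_pos.2 h) hr.1 hvm
        (hvM s ⟨le_rfl, hst.le⟩) hHm hHb (by fun_prop) ?_ x).2
      · have e0 : RR Λ κ s t v r = fun y => Real.exp (-(Λ * (r - s))) * P (r - s) (v s) y +
            ∫ q in s..r, κ * Real.exp (-(Λ * (r - q))) * P (r - q) (tr s t v q) y := rfl
        rw [e0, hap]
        have e3 : t - r + (r - s) = t - s := by ring
        rw [e3]
        congr 1
        apply integral_congr_Ioo' hr.1.le
        intro q hq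
        simp only
        have e4 : t - r + (r - q) = t - q := by ring
        rw [e4, hYlt q (hq.2.trans h), tr_eq v ⟨hq.1, (hq.2.trans h).le⟩]
      · intro q hq
        rw [abs_mul, abs_of_nonneg hκ, abs_of_pos (Real.exp_pos _)]
        exact mul_le_mul_of_nonneg_left (exp_bd q hq) hκ

theorem RR_nonneg {Λ κ s t : ℝ} (hκ : 0 ≤ κ) {v : ℝ → E N → ℝ}
    (hv : ∀ q y, 0 ≤ v q y) {r : ℝ} (hr : r ∈ Ioc s t) (y : E N) : 0 ≤ RR Λ κ s t v r y := by
  unfold RR
  apply add_nonneg
  · exact mul_nonneg (Real.exp_pos _).le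
      (Pool.Agent.H29.TF.P_nonneg (sub_pos.2 hr.1).le (hv s) y)
  · apply intervalIntegral.integral_nonneg hr.1.le
    intro q hq
    apply mul_nonneg (mul_nonneg hκ (Real.exp_pos _).le)
    apply Pool.Agent.H29.TF.P_nonneg (sub_nonneg.2 hq.2)
    intro w
    unfold tr
    apply indicator_nonneg
    intro p _
    exact hv p.1 p.2

end Pool.Agent.H3.RD
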