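import Mathlib
import Pool.Agent.H82.RD.Targets
import Pool.Agent.H82.RD.Basic

/-!
# The number of exponents of bounded degree (row DCA)
-/

set_option autoImplicit false

open Pool.Agent.H82.RD

namespace Pool.Agent.H3.RD

theorem pf_DCA : T_DCA := by
  intro u A
  have h1 : (Sx u A).card = ((Finset.univ : Finset (Fin (u + 1))).finsuppAntidiag A).card := by
    refine Finset.card_bij'
      (fun a _ => Finsupp.equivFunOnFinite.symm (Fin.cons (A - ∑ i, a i) a : Fin (u + 1) → ℕ))
      (fun b _ => fun i : Fin u => b i.succ) ?_ ?_ ?_ ?_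
    · intro a ha
      rw [mem_Sx] at ha
      rw [Finset.mem_finsuppAntidiag]
      refine ⟨?_, Finset.subset_univ _⟩
      simp only [Finsupp.coe_equivFunOnFinite_symm]
      rw [Fin.sum_univ_succ]
      simp only [Fin.cons_zero, Fin.cons_succ]
      omega
    · intro b hb
      rw [Finset.mem_finsuppAntidiag, Fin.sum_univ_succ] at hb
      rw [mem_Sx]
      have := hb.1
      omega
    · intro a ha
      funext i
      simp only [Finsupp.coe_equivFunOnFinite_symm, Fin.cons_succ]
    · intro b hb
      rw [Finset.mem_finsuppAntidiag, Fin.sum_univ_succ] at hb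
      have hb1 := hb.1
      ext i
      simp only [Finsupp.coe_equivFunOnFinite_symm]
      refine Fin.cases ?_ (fun j => ?_) i
      · rw [Fin.cons_zero]
        omega
      · rw [Fin.cons_succ]
  rw [h1, Finset.card_finsuppAntidiag_nat_eq_choose, Finset.card_univ, Fintype.card_fin]
  have h2 : u + 1 + A - 1 = u + A := by omega
  rw [h2, Nat.add_comm A u, Nat.choose_symm_add]

end Pool.Agent.H3.RD
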