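import Pool.Agent.H3.RD.Core

/-!
# MP_609556_an: module GC (general comparison)
-/

open MeasureTheory Set Filter Topology Metric
open Pool.Agent.H29.TF (hk P)

namespace Pool.Agent.H3.RD

open Pool.Agent.H91.RD

theorem gc (hSH : T_SH) : T_GC := by
  intro N k K M s t z h hK hst hzm hzM hhM hzc hhc hduh h1 h2 x
  have hM0 : 0 ≤ M := (abs_nonneg _).trans (hzM s ⟨le_rfl, hst.le⟩ 0)
  set Λ : ℝ := K + |k| with hΛ
  set κ : ℝ := k + Λ with hκ'
  have hκ : 0 ≤ κ := by
    have := neg_abs_le k
    simp only [hκ', hΛ]; linarith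
  have hΛ0 : 0 ≤ Λ := add_nonneg hK (abs_nonneg k)
  set v : ℝ → E N → ℝ := fun q y => max (z q y) 0 with hv
  have hvm : ∀ q, Measurable (z q) → Measurable (v q) := fun q hq => hq.max measurable_const
  have hvM : ∀ r ∈ Icc s t, ∀ x, |v r x| ≤ M := by
    intro r hr x
    have := abs_le.1 (hzM r hr x)
    simp only [hv]
    rw [abs_of_nonneg (le_max_right _ _)]
    exact max_le this.2 hM0
  have hvc : ContinuousOn (fun p : ℝ × E N => v p.1 p.2) (Ioc s t ×ˢ univ) :=
    hzc.sup continuousOn_const
  have hv0 : ∀ q y, 0 ≤ v q y := fun q y => le_max_right _ _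
  have hzv : ∀ q y, z q y ≤ v q y := fun q y => le_max_left _ _
  have hHm : Measurable (Function.uncurry (tr s t v)) := meas_tr hvc
  have hHb := tr_bdd (N := N) hM0 (fun r hr x => hvM r ⟨hr.1.le, hr.2⟩ x)
  -- the right side dominates
  have hdom : ∀ r ∈ Ioc s t, ∀ y, v r y ≤ RR Λ κ s t v r y := by
    intro r hr y
    apply max_le _ (RR_nonneg hκ hv0 hr y)
    rw [hSH N Λ M s t z h hst hzm hzM hhM hzc hhc hduh r hr y]
    unfold RR
    have hrs : 0 < r - s := sub_pos.2 hr.1
    apply add_le_add
    · apply mul_le_mul_of_nonneg_left _ (Real.exp_pos _).le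
      apply Pool.Agent.H29.TF.P_mono hrs y _ _ (hzv s)
      · exact Pool.Agent.H29.TF.integrable_hk_mul hrs hzm.aestronglyMeasurable
          (hzM s ⟨le_rfl, hst.le⟩) y
      · exact Pool.Agent.H29.TF.integrable_hk_mul hrs (hvm s hzm).aestronglyMeasurable
          (hvM s ⟨le_rfl, hst.le⟩) y
    · have hg : ContinuousOn (fun p : ℝ × E N => (fun q y => h q y + Λ * z q y) p.1 p.2)
          (Ioc s t ×ˢ univ) := hhc.add (continuousOn_const.mul hzc)
      have hgb : ∀ r ∈ Ioc s t, ∀ x, |(fun q y => h q y + Λ * z q y) r x| ≤ M + Λ * M := by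
        intro r hr x
        simp only
        refine (abs_add_le _ _).trans (add_le_add (hhM r ⟨hr.1.le, hr.2⟩ x) ?_)
        rw [abs_mul, abs_of_nonneg hΛ0]
        exact mul_le_mul_of_nonneg_left (hzM r ⟨hr.1.le, hr.2⟩ x) hΛ0
      have hi1 := duh_int (C := Real.exp (|Λ| * (r - s))) hr.1.le (meas_tr hg)
        (tr_bdd (by positivity) hgb) (ω := fun q => Real.exp (-(Λ * (r - q)))) (by fun_prop)
        (by intro q hq; rw [abs_of_pos (Real.exp_pos _)]; exact exp_bd q hq) y
      have hi2 := duh_int (C := κ * Real.exp (|Λ| * (r - s))) hr.1.le hHm hHb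
        (ω := fun q => κ * Real.exp (-(Λ * (r - q)))) (by fun_prop)
        (by intro q hq
            rw [abs_mul, abs_of_nonneg hκ, abs_of_pos (Real.exp_pos _)]
            exact mul_le_mul_of_nonneg_left (exp_bd q hq) hκ) y
      have e1 : ∫ q in s..r, Real.exp (-(Λ * (r - q))) *
            P (r - q) (fun y => h q y + Λ * z q y) y =
          ∫ q in s..r, Real.exp (-(Λ * (r - q))) *
            P (r - q) (tr s t (fun q y => h q y + Λ * z q y) q) y := by
        apply integral_congr_Ioo' hr.1.le
        intro q hq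
        simp only
        rw [tr_eq (fun q y => h q y + Λ * z q y) ⟨hq.1, hq.2.le.trans hr.2⟩]
      rw [e1]
      apply intervalIntegral.integral_mono_on_of_le_Ioo hr.1.le hi1 hi2
      intro q hq
      have hqt : q ∈ Ioc s t := ⟨hq.1, hq.2.le.trans hr.2⟩
      have hrq : 0 < r - q := sub_pos.2 hq.2
      rw [tr_eq _ hqt, tr_eq v hqt]
      have e2 : κ * Real.exp (-(Λ * (r - q))) * P (r - q) (v q) y =
          Real.exp (-(Λ * (r - q))) * P (r - q) (fun y => κ * v q y) y := by
        rw [Pool.Agent.H29.TF.P_const_mul]; ring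
      rw [e2]
      apply mul_le_mul_of_nonneg_left _ (Real.exp_pos _).le
      apply Pool.Agent.H29.TF.P_mono hrq y
      · exact Pool.Agent.H29.TF.integrable_hk_mul hrq
          ((continuous_slice hhc hqt).add
            (continuous_const.mul (continuous_slice hzc hqt))).aestronglyMeasurable
          (hgb q hqt) y
      · have := (Pool.Agent.H29.TF.integrable_hk_mul hrq
          (continuous_slice hvc hqt).aestronglyMeasurable (hvM q ⟨hqt.1.le, hqt.2⟩) y).const_mul κ
        refine this.congr (Eventually.of_forall fun w => ?_)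
        ring
      · intro w
        simp only [hv]
        rcases le_or_gt (z q w) 0 with hz | hz
        · rw [max_eq_right hz, mul_zero]
          have := h2 q hqt w hz
          have h5 : |k| * z q w ≤ 0 := mul_nonpos_of_nonneg_of_nonpos (abs_nonneg k) hz
          simp only [hΛ]
          nlinarith
        · rw [max_eq_left hz.le]
          have := h1 q hqt w hz
          simp only [hκ']
          nlinarith
  have hfin := core hst hκ (Λ := Λ) (hvm s hzm) hvM hvc x ?_ (hdom t ⟨hst, le_rfl⟩ x)
  · have e : κ - Λ = k := by simp only [hκ']; ring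
    rw [e] at hfin
    exact (hzv t x).trans hfin
  · intro r hr
    have htr : 0 < t - r := sub_pos.2 hr.2
    apply Pool.Agent.H29.TF.P_mono htr x _ _ (hdom r ⟨hr.1, hr.2.le⟩)
    · exact Pool.Agent.H29.TF.integrable_hk_mul htr
        (continuous_slice hvc ⟨hr.1, hr.2.le⟩).aestronglyMeasurable (hvM r ⟨hr.1.le, hr.2.le⟩) x
    · exact (appl (A := Real.exp (-(Λ * (r - s)))) (C := κ * Real.exp (|Λ| * (r - s)))
        (ω := fun q => κ * Real.exp (-(Λ * (r - q)))) htr hr.1 (hvm s hzm)
        (hvM s ⟨le_rfl, hst.le⟩) hHm hHb (by fun_prop)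
        (by intro q hq
            rw [abs_mul, abs_of_nonneg hκ, abs_of_pos (Real.exp_pos _)]
            exact mul_le_mul_of_nonneg_left (exp_bd q hq) hκ) x).1

end Pool.Agent.H3.RD
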