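import Pool.Agent.H3.RD.Refl

/-!
# MP_609556_an: module ODD (reflection inequality)
-/

open MeasureTheory Set Filter Topology Metric
open Pool.Agent.H29.TF (hk P)

namespace Pool.Agent.H3.RD

open Pool.Agent.H91.RD

theorem odd (hOGC : T_OGC) : T_ODD := by
  intro N f K k a t w e b hf hat hk1 hw hr he x hx
  obtain ⟨M, hM⟩ := hw.bdd
  have hM0 : 0 ≤ M := (abs_nonneg _).trans (hM a le_rfl 0)
  have hfc : Continuous f := by
    have : LipschitzWith ⟨K, hf.K0.le⟩ f := by
      apply LipschitzWith.of_dist_le_mul
      intro p q
      rw [Real.dist_eq, Real.dist_eq]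
      exact hf.lip p q
    exact this.continuous
  have hfb : ∀ r ≥ a, ∀ y, |f (w r y)| ≤ K * M := by
    intro r hr y
    have := hf.lip (w r y) 0
    rw [hf.f0, sub_zero, sub_zero] at this
    exact this.trans (mul_le_mul_of_nonneg_left (hM r hr y) hf.K0.le)
  have hslice : ∀ q ≥ a, Measurable (w q) := by
    intro q hq
    rcases eq_or_lt_of_le hq with h | h
    · rw [← h]; exact hw.meas
    · exact (continuous_slice (s := a) (t := q)
        (hw.cont.mono (prod_mono Ioc_subset_Ioi_self le_rfl)) ⟨h, le_rfl⟩).measurable
  have hind : Measurable ({y : E N | b < inner ℝ y e}.indicator (w a)) := by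
    apply hw.meas.indicator
    have hcin : Continuous (fun y : E N => (inner ℝ y e : ℝ)) := by fun_prop
    exact measurableSet_lt measurable_const hcin.measurable
  have hw0 : ∀ y, 0 ≤ w a y := fun y => (hr a le_rfl y).1
  rcases eq_or_lt_of_le hx with h | h
  · rw [rfl1_eq_self h, sub_self]
    apply mul_nonneg (Real.exp_pos _).le
    apply Pool.Agent.H29.TF.P_nonneg (sub_pos.2 hat).le
    intro y
    exact indicator_nonneg (fun y _ => hw0 y) y
  · set X := rfl1 e b x with hX
    have hXx : rfl1 e b X = x := rfl1_rfl1 he x
    have hXb : b < inner ℝ X e := by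
      rw [hX, inner_rfl1 he]; linarith
    set z : ℝ → E N → ℝ := fun q y => w q y - w q (rfl1 e b y) with hz
    set g : ℝ → E N → ℝ := fun q y => f (w q y) - f (w q (rfl1 e b y)) with hg
    have hcw : ContinuousOn (fun p : ℝ × E N => w p.1 p.2) (Ioc a t ×ˢ univ) :=
      hw.cont.mono (prod_mono Ioc_subset_Ioi_self le_rfl)
    have hcw' : ContinuousOn (fun p : ℝ × E N => w p.1 (rfl1 e b p.2)) (Ioc a t ×ˢ univ) := by
      have h1 : Continuous (fun p : ℝ × E N => ((p.1, rfl1 e b p.2) : ℝ × E N)) :=
        continuous_fst.prodMk (continuous_rfl1.comp continuous_snd)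
      exact hcw.comp h1.continuousOn (fun p hp => ⟨hp.1, mem_univ _⟩)
    have hmr : Measurable (rfl1 e b : E N → E N) := continuous_rfl1.measurable
    have hduh : ∀ r ∈ Ioc a t, ∀ y, z r y = P (r - a) (z a) y +
        ∫ q in a..r, P (r - q) (g q) y := by
      intro r hr y
      have hra : 0 < r - a := sub_pos.2 hr.1
      have h1 := hw.duh a r le_rfl hr.1 y
      have h2 := hw.duh a r le_rfl hr.1 (rfl1 e b y)
      have e1 : P (r - a) (z a) y = P (r - a) (w a) y - P (r - a) (w a) (rfl1 e b y) := by
        rw [← P_rfl1 he hw.meas.aestronglyMeasurable]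
        exact Pool.Agent.H29.TF.P_sub y
          (Pool.Agent.H29.TF.integrable_hk_mul hra hw.meas.aestronglyMeasurable (hM a le_rfl) y)
          (Pool.Agent.H29.TF.integrable_hk_mul hra (hw.meas.comp hmr).aestronglyMeasurable
            (fun w' => hM a le_rfl _) y)
      have hfw : ContinuousOn (fun p : ℝ × E N => (fun q y => f (w q y)) p.1 p.2)
          (Ioc a t ×ˢ univ) := hfc.comp_continuousOn hcw
      have htb := tr_bdd (N := N) (s := a) (t := t) (M := K * M) (h := fun q y => f (w q y))
        (mul_nonneg hf.K0.le hM0) (fun q hq y => hfb q hq.1.le y)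
      have hI : ∀ Y : E N, IntervalIntegrable (fun q => P (r - q) (fun y => f (w q y)) Y)
          volume a r := by
        intro Y
        have := duh_int (C := 1) hr.1.le (meas_tr hfw) htb (ω := fun _ => 1) measurable_const
          (fun _ _ => by simp) Y
        refine this.congr ?_
        rw [uIoc_of_le hr.1.le]
        intro q hq
        simp only
        rw [one_mul, tr_eq (fun q y => f (w q y)) ⟨hq.1, hq.2.trans hr.2⟩]
      have e2 : ∫ q in a..r, P (r - q) (g q) y =
          (∫ q in a..r, P (r - q) (fun y => f (w q y)) y) -
          ∫ q in a..r, P (r - q) (fun y => f (w q y)) (rfl1 e b y) := by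
        rw [← intervalIntegral.integral_sub (hI y) (hI _)]
        apply integral_congr_Ioo' hr.1.le
        intro q hq
        have hrq : 0 < r - q := sub_pos.2 hq.2
        have hm : Measurable (fun y => f (w q y)) := hfc.measurable.comp (hslice q hq.1.le)
        simp only
        rw [← P_rfl1 he hm.aestronglyMeasurable]
        exact Pool.Agent.H29.TF.P_sub y
          (Pool.Agent.H29.TF.integrable_hk_mul hrq hm.aestronglyMeasurable (hfb q hq.1.le) y)
          (Pool.Agent.H29.TF.integrable_hk_mul hrq (hm.comp hmr).aestronglyMeasurable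
            (fun w' => hfb q hq.1.le _) y)
      rw [e1, e2]
      simp only [hz]
      rw [h1, h2]
      ring
    have hmain := hOGC N k K (2 * M + 2 * (K * M)) a t z g e b he hf.K0.le hat
      (hw.meas.sub (hw.meas.comp hmr)) ?_ ?_ (hcw.sub hcw')
      ((hfc.comp_continuousOn hcw).sub (hfc.comp_continuousOn hcw')) ?_ ?_ hduh ?_ ?_ X hXb
    · have e3 : z t X = w t X - w t x := by simp only [hz]; rw [hXx]
      rw [e3] at hmain
      refine hmain.trans ?_
      apply mul_le_mul_of_nonneg_left _ (Real.exp_pos _).le
      have hta : 0 < t - a := sub_pos.2 hat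
      apply Pool.Agent.H29.TF.P_mono hta X
      · apply Pool.Agent.H29.TF.integrable_hk_mul (C := 2 * M) hta
        · have hcin : Continuous (fun y : E N => (inner ℝ y e : ℝ)) := by fun_prop
          exact (((hw.meas.sub (hw.meas.comp hmr)).max measurable_const).indicator
            (measurableSet_lt measurable_const hcin.measurable)).aestronglyMeasurable
        · intro y
          by_cases hy : y ∈ {y : E N | b < inner ℝ y e}
          · rw [indicator_of_mem hy, abs_of_nonneg (le_max_right _ _)]
            apply max_le _ (by positivity)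
            simp only [hz]
            have h1 := (abs_le.1 (hM a le_rfl y)).2
            have h2 := (abs_le.1 (hM a le_rfl (rfl1 e b y))).1
            linarith
          · rw [indicator_of_notMem hy]; simp; positivity
      · apply Pool.Agent.H29.TF.integrable_hk_mul (C := M) hta hind.aestronglyMeasurable
        intro y
        by_cases hy : y ∈ {y : E N | b < inner ℝ y e}
        · rw [indicator_of_mem hy]; exact hM a le_rfl y
        · rw [indicator_of_notMem hy]; simpa using hM0
      · intro y
        by_cases hy : y ∈ {y : E N | b < inner ℝ y e}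
        · rw [indicator_of_mem hy, indicator_of_mem hy]
          apply max_le _ (hw0 y)
          simp only [hz]
          have := hw0 (rfl1 e b y)
          linarith
        · rw [indicator_of_notMem hy, indicator_of_notMem hy]
    · intro r hr y
      simp only [hz]
      have h1 := hM r hr.1 y
      have h2 := hM r hr.1 (rfl1 e b y)
      have h3 := abs_sub (w r y) (w r (rfl1 e b y))
      have h4 : 0 ≤ K * M := mul_nonneg hf.K0.le hM0
      linarith
    · intro r hr y
      simp only [hg]
      have h1 := hfb r hr.1 y
      have h2 := hfb r hr.1 (rfl1 e b y)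
      have h3 := abs_sub (f (w r y)) (f (w r (rfl1 e b y)))
      linarith
    · intro r _ y
      simp only [hz]
      rw [rfl1_rfl1 he]; ring
    · intro r _ y
      simp only [hg]
      rw [rfl1_rfl1 he]; ring
    · intro r hr' y _ hy
      simp only [hz] at hy
      simp only [hg, hz]
      have h1 := hr r hr'.1.le y
      have h2 := hr r hr'.1.le (rfl1 e b y)
      exact hk1 _ _ h2.1 (by linarith) h1.2
    · intro r _ y _ hy
      simp only [hz] at hy
      simp only [hg, hz]
      have h1 := hf.lip (w r y) (w r (rfl1 e b y))
      rw [abs_of_nonpos hy] at h1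
      have h2 := (abs_le.1 h1).2
      linarith

end Pool.Agent.H3.RD
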