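import Pool.Agent.H3.RD.Refl

/-!
# MP_609556_an: module OGC (comparison for odd functions)
-/

open MeasureTheory Set Filter Topology Metric
open Pool.Agent.H29.TF (hk P)

namespace Pool.Agent.H3.RD

open Pool.Agent.H91.RD

/-- odd extension of the positive part -/
noncomputable def ov {N : ℕ} (e : E N) (b : ℝ) (z : ℝ → E N → ℝ) (q : ℝ) (y : E N) : ℝ :=
  if b ≤ inner ℝ y e then max (z q y) 0 else min (z q y) 0

theorem ogc (hSH : T_SH) : T_OGC := by
  intro N k K M s t z h e b he hK hst hzm hzM hhM hzc hhc hzo hho hduh h1 h2 x hx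
  have hM0 : 0 ≤ M := (abs_nonneg _).trans (hzM s ⟨le_rfl, hst.le⟩ 0)
  set Λ : ℝ := K + |k| with hΛ
  set κ : ℝ := k + Λ with hκ'
  have hκ : 0 ≤ κ := by
    have := neg_abs_le k
    simp only [hκ', hΛ]; linarith
  have hΛ0 : 0 ≤ Λ := add_nonneg hK (abs_nonneg k)
  set v : ℝ → E N → ℝ := ov e b z with hv
  have hcin : Continuous (fun y : E N => (inner ℝ y e : ℝ)) := by fun_prop
  have hvm : Measurable (v s) := by
    simp only [hv]
    unfold ov
    apply Measurable.ite (measurableSet_le measurable_const hcin.measurable)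
    · exact hzm.max measurable_const
    · exact hzm.min measurable_const
  have hvpos : ∀ q y, b ≤ inner ℝ y e → v q y = max (z q y) 0 := by
    intro q y hy
    simp only [hv]; unfold ov; rw [if_pos hy]
  have hvneg : ∀ q y, inner ℝ y e < b → v q y = min (z q y) 0 := by
    intro q y hy
    simp only [hv]; unfold ov; rw [if_neg (not_le.2 hy)]
  have hvM : ∀ r ∈ Icc s t, ∀ x, |v r x| ≤ M := by
    intro r hr x
    have := abs_le.1 (hzM r hr x)
    rcases le_or_gt b (inner ℝ x e) with hb | hb
    · rw [hvpos r x hb, abs_of_nonneg (le_max_right _ _)]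
      exact max_le this.2 hM0
    · rw [hvneg r x hb, abs_of_nonpos (min_le_right _ _)]
      have h5 : -M ≤ min (z r x) 0 := le_min this.1 (by linarith)
      linarith
  have hz0 : ∀ r ∈ Icc s t, ∀ y, (inner ℝ y e : ℝ) = b → z r y = 0 := by
    intro r hr y hy
    have := hzo r hr y
    rw [rfl1_eq_self hy] at this
    linarith
  have hvo : ∀ r ∈ Icc s t, ∀ y, v r (rfl1 e b y) = -v r y := by
    intro r hr y
    have hin := inner_rfl1 (b := b) he y
    rcases lt_trichotomy b (inner ℝ y e) with hb | hb | hb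
    · rw [hvpos r y hb.le, hvneg r _ (by rw [hin]; linarith), hzo r hr y]
      rcases le_total (z r y) 0 with h0 | h0
      · rw [max_eq_right h0, min_eq_right (by linarith)]; simp
      · rw [max_eq_left h0, min_eq_left (by linarith)]
    · rw [rfl1_eq_self hb.symm, hvpos r y hb.le, hz0 r hr y hb.symm]
      simp
    · rw [hvneg r y hb, hvpos r _ (by rw [hin]; linarith), hzo r hr y]
      rcases le_total (z r y) 0 with h0 | h0
      · rw [min_eq_left h0, max_eq_left (by linarith)]
      · rw [min_eq_right h0, max_eq_right (by linarith)]; simp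
  have hvc : ContinuousOn (fun p : ℝ × E N => v p.1 p.2) (Ioc s t ×ˢ univ) := by
    rw [continuousOn_iff_continuous_domRestrict]
    have hr := continuousOn_iff_continuous_domRestrict.1 hzc
    have := Continuous.if_le (f' := fun p : (Ioc s t ×ˢ (univ : Set (E N)) : Set (ℝ × E N)) =>
        max (z p.1.1 p.1.2) 0)
      (g' := fun p => min (z p.1.1 p.1.2) 0) (f := fun _ => b)
      (g := fun p => (inner ℝ p.1.2 e : ℝ)) (hr.sup continuous_const) (hr.inf continuous_const)
      continuous_const (by fun_prop) ?_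
    · exact this
    · intro p hp
      show max (z p.1.1 p.1.2) 0 = min (z p.1.1 p.1.2) 0
      rw [hz0 p.1.1 ⟨p.2.1.1.le, p.2.1.2⟩ p.1.2 hp.symm]
      simp
  have hzv : ∀ q y, b < inner ℝ y e → z q y ≤ v q y := fun q y hy => by
    rw [hvpos q y hy.le]; exact le_max_left _ _
  have hv0 : ∀ q y, b < inner ℝ y e → 0 ≤ v q y := fun q y hy => by
    rw [hvpos q y hy.le]; exact le_max_right _ _
  have hHm : Measurable (Function.uncurry (tr s t v)) := meas_tr hvc
  have hHb := tr_bdd (N := N) hM0 (fun r hr x => hvM r ⟨hr.1.le, hr.2⟩ x)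
  have hωb : ∀ r, ∀ q ∈ Ioo s r, |κ * Real.exp (-(Λ * (r - q)))| ≤
      κ * Real.exp (|Λ| * (r - s)) := by
    intro r q hq
    rw [abs_mul, abs_of_nonneg hκ, abs_of_pos (Real.exp_pos _)]
    exact mul_le_mul_of_nonneg_left (exp_bd q hq) hκ
  -- the right side dominates on the half space
  have hdom : ∀ r ∈ Ioc s t, ∀ y, b < inner ℝ y e → v r y ≤ RR Λ κ s t v r y := by
    intro r hr y hy
    have hrs : 0 < r - s := sub_pos.2 hr.1
    rw [hvpos r y hy.le]
    apply max_le
    · rw [hSH N Λ M s t z h hst hzm hzM hhM hzc hhc hduh r hr y]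
      unfold RR
      apply add_le_add
      · apply mul_le_mul_of_nonneg_left _ (Real.exp_pos _).le
        exact P_odd_mono he hrs hzm.aestronglyMeasurable (hzM s ⟨le_rfl, hst.le⟩)
          hvm.aestronglyMeasurable (hvM s ⟨le_rfl, hst.le⟩) (hzo s ⟨le_rfl, hst.le⟩)
          (hvo s ⟨le_rfl, hst.le⟩) (hzv s) hy
      · have hg : ContinuousOn (fun p : ℝ × E N => (fun q y => h q y + Λ * z q y) p.1 p.2)
            (Ioc s t ×ˢ univ) := hhc.add (continuousOn_const.mul hzc)
        have hgb : ∀ r ∈ Ioc s t, ∀ x, |(fun q y => h q y + Λ * z q y) r x| ≤ M + Λ * M := by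
          intro r hr x
          simp only
          refine (abs_add_le _ _).trans (add_le_add (hhM r ⟨hr.1.le, hr.2⟩ x) ?_)
          rw [abs_mul, abs_of_nonneg hΛ0]
          exact mul_le_mul_of_nonneg_left (hzM r ⟨hr.1.le, hr.2⟩ x) hΛ0
        have hi1 := duh_int (C := Real.exp (|Λ| * (r - s))) hr.1.le (meas_tr hg)
          (tr_bdd (by positivity) hgb) (ω := fun q => Real.exp (-(Λ * (r - q)))) (by fun_prop)
          (by intro q hq; rw [abs_of_pos (Real.exp_pos _)]; exact exp_bd q hq) y
        have hi2 := duh_int (C := κ * Real.exp (|Λ| * (r - s))) hr.1.le hHm hHb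
          (ω := fun q => κ * Real.exp (-(Λ * (r - q)))) (by fun_prop) (hωb r) y
        have e1 : ∫ q in s..r, Real.exp (-(Λ * (r - q))) *
              P (r - q) (fun y => h q y + Λ * z q y) y =
            ∫ q in s..r, Real.exp (-(Λ * (r - q))) *
              P (r - q) (tr s t (fun q y => h q y + Λ * z q y) q) y := by
          apply integral_congr_Ioo' hr.1.le
          intro q hq
          simp only
          rw [tr_eq (fun q y => h q y + Λ * z q y) ⟨hq.1, hq.2.le.trans hr.2⟩]
        rw [e1]
        apply intervalIntegral.integral_mono_on_of_le_Ioo hr.1.le hi1 hi2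
        intro q hq
        have hqt : q ∈ Ioc s t := ⟨hq.1, hq.2.le.trans hr.2⟩
        have hqt' : q ∈ Icc s t := ⟨hqt.1.le, hqt.2⟩
        have hrq : 0 < r - q := sub_pos.2 hq.2
        rw [tr_eq _ hqt, tr_eq v hqt]
        have e2 : κ * Real.exp (-(Λ * (r - q))) * P (r - q) (v q) y =
            Real.exp (-(Λ * (r - q))) * P (r - q) (fun y => κ * v q y) y := by
          rw [Pool.Agent.H29.TF.P_const_mul]; ring
        rw [e2]
        apply mul_le_mul_of_nonneg_left _ (Real.exp_pos _).le
        apply P_odd_mono (M := M + Λ * M) (M' := κ * M) (g1 := fun y => h q y + Λ * z q y)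
          (g2 := fun y => κ * v q y) he hrq
          ((continuous_slice hhc hqt).add
              (continuous_const.mul (continuous_slice hzc hqt))).aestronglyMeasurable
          (hgb q hqt)
          (continuous_const.mul (continuous_slice hvc hqt)).aestronglyMeasurable
          _ _ _ _ hy
        · intro w
          rw [abs_mul, abs_of_nonneg hκ]
          exact mul_le_mul_of_nonneg_left (hvM q hqt' w) hκ
        · intro w
          rw [hho q hqt' w, hzo q hqt' w]; ring
        · intro w
          rw [hvo q hqt' w]; ring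
        · intro w hw
          rw [hvpos q w hw.le]
          rcases le_or_gt (z q w) 0 with hz | hz
          · rw [max_eq_right hz, mul_zero]
            have := h2 q hqt w hw hz
            have h5 : |k| * z q w ≤ 0 := mul_nonpos_of_nonneg_of_nonpos (abs_nonneg k) hz
            simp only [hΛ]
            nlinarith
          · rw [max_eq_left hz.le]
            have := h1 q hqt w hw hz
            simp only [hκ']
            nlinarith
    · unfold RR
      apply add_nonneg
      · exact mul_nonneg (Real.exp_pos _).le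
          (P_odd_nonneg he hrs hvm.aestronglyMeasurable (hvM s ⟨le_rfl, hst.le⟩)
            (hvo s ⟨le_rfl, hst.le⟩) (hv0 s) hy)
      · rw [intervalIntegral.integral_of_le hr.1.le, integral_Ioc_eq_integral_Ioo]
        apply setIntegral_nonneg measurableSet_Ioo
        intro q hq
        have hqt : q ∈ Ioc s t := ⟨hq.1, hq.2.le.trans hr.2⟩
        have hqt' : q ∈ Icc s t := ⟨hqt.1.le, hqt.2⟩
        have hrq : 0 < r - q := sub_pos.2 hq.2
        rw [tr_eq v hqt]
        apply mul_nonneg (mul_nonneg hκ (Real.exp_pos _).le)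
        exact P_odd_nonneg he hrq (continuous_slice hvc hqt).aestronglyMeasurable (hvM q hqt')
          (hvo q hqt') (hv0 q) hy
  -- the right side is odd
  have hodd : ∀ r ∈ Ioc s t, ∀ y, RR Λ κ s t v r (rfl1 e b y) = -RR Λ κ s t v r y := by
    intro r hr y
    unfold RR
    rw [P_odd he hvm.aestronglyMeasurable (hvo s ⟨le_rfl, hst.le⟩), neg_add, mul_neg,
      ← intervalIntegral.integral_neg]
    congr 1
    apply integral_congr_Ioo' hr.1.le
    intro q hq
    have hqt : q ∈ Ioc s t := ⟨hq.1, hq.2.le.trans hr.2⟩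
    simp only
    rw [tr_eq v hqt, P_odd he (continuous_slice hvc hqt).aestronglyMeasurable
      (hvo q ⟨hqt.1.le, hqt.2⟩)]
    ring
  have hRmb : ∀ r ∈ Ioc s t, AEStronglyMeasurable (RR Λ κ s t v r) volume ∧
      ∀ y, |RR Λ κ s t v r y| ≤ Real.exp (-(Λ * (r - s))) * M +
        κ * Real.exp (|Λ| * (r - s)) * M * (r - s) := by
    intro r hr
    obtain ⟨m1, m2⟩ := duh_term hr.1.le hHm hHb
      (ω := fun q => κ * Real.exp (-(Λ * (r - q)))) (by fun_prop) (hωb r)
    constructor
    · unfold RR
      exact ((Pool.Agent.H29.TF.aesm_P hvm.aestronglyMeasurable).const_mul _).add m1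
    · intro y
      unfold RR
      refine (abs_add_le _ _).trans (add_le_add ?_ (m2 y))
      rw [abs_mul, abs_of_pos (Real.exp_pos _)]
      exact mul_le_mul_of_nonneg_left (Pool.Agent.H29.TF.abs_P_le (sub_pos.2 hr.1)
        (hvM s ⟨le_rfl, hst.le⟩) y) (Real.exp_pos _).le
  have hfin := core hst hκ (Λ := Λ) hvm hvM hvc x ?_ (hdom t ⟨hst, le_rfl⟩ x hx)
  · have ek : κ - Λ = k := by simp only [hκ']; ring
    rw [ek] at hfin
    refine (hzv t x hx).trans (hfin.trans ?_)
    apply mul_le_mul_of_nonneg_left _ (Real.exp_pos _).le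
    have hts : 0 < t - s := sub_pos.2 hst
    have hmeasH : MeasurableSet {y : E N | b < inner ℝ y e} :=
      measurableSet_lt measurable_const hcin.measurable
    apply Pool.Agent.H29.TF.P_mono hts x
    · exact Pool.Agent.H29.TF.integrable_hk_mul hts hvm.aestronglyMeasurable
        (hvM s ⟨le_rfl, hst.le⟩) x
    · apply Pool.Agent.H29.TF.integrable_hk_mul (C := M) hts
        ((hzm.max measurable_const).indicator hmeasH).aestronglyMeasurable
      intro y
      by_cases hy : y ∈ {y : E N | b < inner ℝ y e}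
      · rw [indicator_of_mem hy, abs_of_nonneg (le_max_right _ _)]
        exact max_le (abs_le.1 (hzM s ⟨le_rfl, hst.le⟩ y)).2 hM0
      · rw [indicator_of_notMem hy]; simpa using hM0
    · intro y
      by_cases hy : y ∈ {y : E N | b < inner ℝ y e}
      · rw [indicator_of_mem hy, hvpos s y (le_of_lt hy)]
      · rw [indicator_of_notMem hy]
        have hy' : ¬ b < inner ℝ y e := hy
        rcases eq_or_lt_of_le (not_lt.1 hy') with h0 | h0
        · rw [hvpos s y h0.ge, hz0 s ⟨le_rfl, hst.le⟩ y h0]; simp
        · rw [hvneg s y h0]; exact min_le_right _ _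
  · intro r hr
    have hrt : r ∈ Ioc s t := ⟨hr.1, hr.2.le⟩
    have htr : 0 < t - r := sub_pos.2 hr.2
    obtain ⟨m1, m2⟩ := hRmb r hrt
    exact P_odd_mono he htr (continuous_slice hvc hrt).aestronglyMeasurable
      (hvM r ⟨hr.1.le, hr.2.le⟩) m1 m2 (hvo r ⟨hr.1.le, hr.2.le⟩) (hodd r hrt) (hdom r hrt) hx

end Pool.Agent.H3.RD
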