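import Pool.Agent.H3.RD.Core

/-!
# MP_609556_an: reflections and odd functions
-/

open MeasureTheory Set Filter Topology Metric
open Pool.Agent.H29.TF (hk P)

namespace Pool.Agent.H3.RD

open Pool.Agent.H91.RD

variable {N : ℕ} {e : E N} {b : ℝ}

theorem inner_self_one (he : ‖e‖ = 1) : (inner ℝ e e : ℝ) = 1 := by
  rw [real_inner_self_eq_norm_sq, he]; norm_num

theorem inner_rfl1 (he : ‖e‖ = 1) (x : E N) :
    (inner ℝ (rfl1 e b x) e : ℝ) = 2 * b - inner ℝ x e := by
  unfold rfl1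
  rw [inner_sub_left, real_inner_smul_left, inner_self_one he]
  ring

theorem rfl1_rfl1 (he : ‖e‖ = 1) (x : E N) : rfl1 e b (rfl1 e b x) = x := by
  have h := inner_rfl1 (b := b) he x
  have h1 : rfl1 e b (rfl1 e b x) =
      rfl1 e b x - (2 * (inner ℝ (rfl1 e b x) e - b)) • e := rfl
  rw [h1, h]
  unfold rfl1
  rw [sub_sub, ← add_smul]
  have : 2 * (inner ℝ x e - b) + 2 * (2 * b - inner ℝ x e - b) = 0 := by ring
  rw [this, zero_smul, sub_zero]

theorem rfl1_eq_self {x : E N} (h : (inner ℝ x e : ℝ) = b) : rfl1 e b x = x := by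
  unfold rfl1; rw [h]; simp

theorem continuous_rfl1 : Continuous (rfl1 e b) := by
  unfold rfl1; fun_prop

theorem mp_rfl1 (he : ‖e‖ = 1) : MeasurePreserving (rfl1 e b) volume volume := by
  have h1 := ((Submodule.span ℝ {e})ᗮ.reflection).measurePreserving
  have h2 := measurePreserving_add_right (volume : Measure (E N)) ((2 * b) • e)
  have h3 := h2.comp h1
  have h4 : rfl1 e b = (fun x => x + (2 * b) • e) ∘ ((Submodule.span ℝ {e})ᗮ.reflection) := by
    funext x
    simp only [Function.comp_apply]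
    rw [Submodule.reflection_orthogonal_apply, Submodule.reflection_singleton_apply, he]
    unfold rfl1
    rw [real_inner_comm e x]
    have h5 : ((2 : ℕ) • ((inner ℝ e x : ℝ) / (((1 : ℝ) : ℝ) ^ 2)) • e) =
        (2 * (inner ℝ e x : ℝ)) • e := by
      rw [two_smul ℕ, ← add_smul]; congr 1; ring
    have h6 : (2 * ((inner ℝ e x : ℝ) - b)) • e = (2 * (inner ℝ e x : ℝ)) • e - (2 * b) • e := by
      rw [← sub_smul]; congr 1; ring
    rw [h6]
    erw [h5]
    abel
  rw [h4]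
  exact h3

theorem norm_sub_rfl1_sq (he : ‖e‖ = 1) (x y : E N) :
    ‖x - rfl1 e b y‖ ^ 2 = ‖x - y‖ ^ 2 + 4 * (inner ℝ x e - b) * (inner ℝ y e - b) := by
  unfold rfl1
  have h1 : x - (y - (2 * (inner ℝ y e - b)) • e) = (x - y) + (2 * (inner ℝ y e - b)) • e := by
    abel
  rw [h1, norm_add_sq_real, norm_smul, real_inner_smul_right, inner_sub_left, he, mul_pow,
    Real.norm_eq_abs, sq_abs]
  ring

theorem norm_sub_rfl1_comm (he : ‖e‖ = 1) (x y : E N) :
    ‖x - rfl1 e b y‖ = ‖rfl1 e b x - y‖ := by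
  have h1 := norm_sub_rfl1_sq (b := b) he x y
  have h2 := norm_sub_rfl1_sq (b := b) he y x
  rw [norm_sub_rev y (rfl1 e b x), norm_sub_rev y x] at h2
  have h3 : ‖x - rfl1 e b y‖ ^ 2 = ‖rfl1 e b x - y‖ ^ 2 := by rw [h1, h2]; ring
  exact (sq_eq_sq₀ (norm_nonneg _) (norm_nonneg _)).1 h3

theorem hk_congr {t : ℝ} {v w : E N} (h : ‖v‖ = ‖w‖) : hk t v = hk t w := by
  unfold hk; rw [h]

theorem hk_anti {t : ℝ} (ht : 0 < t) {v w : E N} (h : ‖v‖ ^ 2 ≤ ‖w‖ ^ 2) : hk t w ≤ hk t v := by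
  unfold hk
  have hpi := Real.pi_pos
  apply mul_le_mul_of_nonneg_left _ (by positivity)
  apply Real.exp_le_exp.2
  apply div_le_div_of_nonneg_right _ (by positivity)
  linarith

theorem integral_comp_rfl1 (he : ‖e‖ = 1) (F : E N → ℝ) (hF : AEStronglyMeasurable F volume) :
    ∫ y, F (rfl1 e b y) = ∫ y, F y := by
  have h1 := (mp_rfl1 (b := b) he)
  have h2 := integral_map (μ := (volume : Measure (E N))) (φ := rfl1 e b) (f := F)
    h1.measurable.aemeasurable (by rw [h1.map_eq]; exact hF)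
  rw [h1.map_eq] at h2
  exact h2.symm

/-- the heat semigroup commutes with the reflection -/
theorem P_rfl1 (he : ‖e‖ = 1) {τ : ℝ} {g : E N → ℝ} (hg : AEStronglyMeasurable g volume)
    (x : E N) : P τ (fun y => g (rfl1 e b y)) x = P τ g (rfl1 e b x) := by
  unfold P
  rw [← integral_comp_rfl1 (b := b) he (fun y => hk τ (rfl1 e b x - y) * g y)
    ((Continuous.aestronglyMeasurable (by fun_prop)).mul hg)]
  congr 1; ext y
  congr 1
  apply hk_congr
  rw [← norm_sub_rfl1_comm he, rfl1_rfl1 he]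

theorem P_odd (he : ‖e‖ = 1) {τ : ℝ} {g : E N → ℝ} (hg : AEStronglyMeasurable g volume)
    (ho : ∀ y, g (rfl1 e b y) = -g y) (x : E N) : P τ g (rfl1 e b x) = -P τ g x := by
  rw [← P_rfl1 he hg]
  simp_rw [ho]
  have := Pool.Agent.H29.TF.P_const_mul τ (-1) g x
  simpa using this

/-- an odd function which is nonnegative on one side stays so -/
theorem P_odd_nonneg (he : ‖e‖ = 1) {τ M : ℝ} (hτ : 0 < τ) {g : E N → ℝ}
    (hg : AEStronglyMeasurable g volume) (hM : ∀ y, |g y| ≤ M)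
    (ho : ∀ y, g (rfl1 e b y) = -g y) (hp : ∀ y, b < inner ℝ y e → 0 ≤ g y)
    {x : E N} (hx : b < inner ℝ x e) : 0 ≤ P τ g x := by
  have hi1 := Pool.Agent.H29.TF.integrable_hk_mul hτ hg hM x
  have e1 : ∫ y, hk τ (x - rfl1 e b y) * g (rfl1 e b y) = P τ g x := by
    unfold P
    exact integral_comp_rfl1 he (fun y => hk τ (x - y) * g y) hi1.aestronglyMeasurable
  have hi2 : Integrable (fun y => hk τ (x - rfl1 e b y) * g (rfl1 e b y)) := by
    have h1 := (mp_rfl1 (b := b) he)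
    exact h1.integrable_comp_of_integrable hi1
  have e2 : 2 * P τ g x = ∫ y, (hk τ (x - y) - hk τ (x - rfl1 e b y)) * g y := by
    have : P τ g x + P τ g x = ∫ y, (hk τ (x - y) * g y +
        hk τ (x - rfl1 e b y) * g (rfl1 e b y)) := by
      rw [integral_add hi1 hi2, e1]; rfl
    rw [two_mul, this]
    congr 1; ext y
    rw [ho y]; ring
  have h3 : 0 ≤ ∫ y, (hk τ (x - y) - hk τ (x - rfl1 e b y)) * g y := by
    apply integral_nonneg
    intro y
    simp only [Pi.zero_apply]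
    have hn := norm_sub_rfl1_sq (b := b) he x y
    rcases lt_trichotomy b (inner ℝ y e) with h | h | h
    · apply mul_nonneg _ (hp y h)
      rw [sub_nonneg]
      apply hk_anti hτ
      rw [hn]
      nlinarith [mul_pos (sub_pos.2 hx) (sub_pos.2 h)]
    · have h5 := ho y
      rw [rfl1_eq_self h.symm] at h5
      have h6 : g y = 0 := by linarith
      rw [h6, mul_zero]
    · have h5 := ho y
      have h7 : b < inner ℝ (rfl1 e b y) e := by
        rw [inner_rfl1 he]; linarith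
      have h8 := hp _ h7
      rw [h5] at h8
      apply mul_nonneg_of_nonpos_of_nonpos _ (by linarith)
      rw [sub_nonpos]
      apply hk_anti hτ
      rw [hn]
      nlinarith [mul_pos (sub_pos.2 hx) (sub_pos.2 h)]
  linarith

theorem P_odd_mono (he : ‖e‖ = 1) {τ M M' : ℝ} (hτ : 0 < τ) {g1 g2 : E N → ℝ}
    (hg1 : AEStronglyMeasurable g1 volume) (hM1 : ∀ y, |g1 y| ≤ M)
    (hg2 : AEStronglyMeasurable g2 volume) (hM2 : ∀ y, |g2 y| ≤ M')
    (ho1 : ∀ y, g1 (rfl1 e b y) = -g1 y) (ho2 : ∀ y, g2 (rfl1 e b y) = -g2 y)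
    (hp : ∀ y, b < inner ℝ y e → g1 y ≤ g2 y)
    {x : E N} (hx : b < inner ℝ x e) : P τ g1 x ≤ P τ g2 x := by
  have h1 := P_odd_nonneg (b := b) he (τ := τ) (M := M' + M) hτ (g := fun y => g2 y - g1 y)
    (hg2.sub hg1) (fun y => (abs_sub _ _).trans (add_le_add (hM2 y) (hM1 y)))
    (fun y => by rw [ho1, ho2]; ring) (fun y hy => sub_nonneg.2 (hp y hy)) hx
  rw [Pool.Agent.H29.TF.P_sub x (Pool.Agent.H29.TF.integrable_hk_mul hτ hg2 hM2 x)
    (Pool.Agent.H29.TF.integrable_hk_mul hτ hg1 hM1 x)] at h1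
  linarith

end Pool.Agent.H3.RD
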