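import Pool.Agent.H3.RD.Base

/-!
# MP_609556_an: module SH (exponential shift in Duhamel's formula)
-/

open MeasureTheory Set Filter Topology Metric
open Pool.Agent.H29.TF (hk P)

namespace Pool.Agent.H3.RD

open Pool.Agent.H91.RD

theorem integral_congr_Ioo' {s r : ℝ} (hsr : s ≤ r) {F G : ℝ → ℝ} (h : ∀ q ∈ Ioo s r, F q = G q) :
    ∫ q in s..r, F q = ∫ q in s..r, G q := by
  rw [intervalIntegral.integral_of_le hsr, intervalIntegral.integral_of_le hsr,
    integral_Ioc_eq_integral_Ioo, integral_Ioc_eq_integral_Ioo]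
  exact setIntegral_congr_fun measurableSet_Ioo h

theorem continuous_slice {N : ℕ} {s t : ℝ} {z : ℝ → E N → ℝ}
    (hzc : ContinuousOn (fun p : ℝ × E N => z p.1 p.2) (Ioc s t ×ˢ univ)) {q : ℝ}
    (hq : q ∈ Ioc s t) : Continuous (z q) := by
  have h1 : Continuous (fun y : E N => ((q, y) : ℝ × E N)) := by fun_prop
  have h2 := hzc.comp_continuous h1 (fun y => ⟨hq, mem_univ _⟩)
  exact h2

theorem measurable_slice {N : ℕ} {s t : ℝ} {z : ℝ → E N → ℝ} (hzm : Measurable (z s))
    (hzc : ContinuousOn (fun p : ℝ × E N => z p.1 p.2) (Ioc s t ×ˢ univ)) {q : ℝ}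
    (hq : q ∈ Icc s t) : Measurable (z q) := by
  rcases eq_or_lt_of_le hq.1 with h | h
  · rw [← h]; exact hzm
  · exact (continuous_slice hzc ⟨h, hq.2⟩).measurable

theorem sh : T_SH := by
  intro N Λ M s t z h hst hzm hzM hhM hzc hhc hduh r hr x
  have hM0 : 0 ≤ M := (abs_nonneg _).trans (hzM s ⟨le_rfl, hst.le⟩ 0)
  have hsr : s < r := hr.1
  have hHm : Measurable (Function.uncurry (tr s t h)) := meas_tr hhc
  have hHb := tr_bdd (N := N) hM0 (fun r hr x => hhM r ⟨hr.1.le, hr.2⟩ x)
  set G : ℝ → ℝ := fun q => P (r - q) (h q) x with hG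
  have hGH : ∀ q ∈ Ioc s r, G q = P (r - q) (tr s t h q) x := by
    intro q hq
    simp only [hG]
    rw [tr_eq h ⟨hq.1, hq.2.trans hr.2⟩]
  have hGb : ∀ q ∈ Ioo s r, |G q| ≤ M := by
    intro q hq
    exact Pool.Agent.H29.TF.abs_P_le (sub_pos.2 hq.2) (hhM q ⟨hq.1.le, hq.2.le.trans hr.2⟩) x
  have hGm : AEStronglyMeasurable G (volume.restrict (Ioo s r)) := by
    have h1 : Measurable (fun q : ℝ => P (r - q) (tr s t h q) x) := by
      have h2 := (meas_P r hHm).measurable
      have h3 : Measurable (fun q : ℝ => ((q, x) : ℝ × E N)) := by fun_prop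
      exact h2.comp h3
    refine h1.aestronglyMeasurable.congr ?_
    filter_upwards [ae_restrict_mem measurableSet_Ioo] with q hq
    exact (hGH q ⟨hq.1, hq.2.le⟩).symm
  have hGi : IntervalIntegrable G volume s r := by
    rw [intervalIntegrable_iff_integrableOn_Ioc_of_le hsr.le,
      integrableOn_Ioc_iff_integrableOn_Ioo]
    refine Integrable.mono' (integrable_const M) hGm ?_
    filter_upwards [ae_restrict_mem measurableSet_Ioo] with q hq
    exact hGb q hq
  set F0 : ℝ := P (r - s) (z s) x with hF0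
  set F : ℝ → ℝ := fun q => F0 + ∫ p in s..q, G p with hF
  -- the first formula
  have hFA : ∀ q ∈ Ioo s r, P (r - q) (z q) x = F q := by
    intro q hq
    have hqt : q ∈ Ioc s t := ⟨hq.1, hq.2.le.trans hr.2⟩
    have hrq : 0 < r - q := sub_pos.2 hq.2
    have hqs : 0 < q - s := sub_pos.2 hq.1
    have e1 : ∀ y, z q y = P (q - s) (z s) y + ∫ p in s..q, 1 * P (q - p) (tr s t h p) y := by
      intro y
      rw [hduh q hqt y]
      congr 1
      apply integral_congr_Ioo' hq.1.le
      intro p hp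
      simp only
      rw [one_mul, tr_eq h ⟨hp.1, hp.2.le.trans hqt.2⟩]
    have hz0 : ∀ y, |z s y| ≤ M := hzM s ⟨le_rfl, hst.le⟩
    have hi1 : Integrable (fun y => hk (r - q) (x - y) * P (q - s) (z s) y) :=
      Pool.Agent.H29.TF.integrable_hk_mul hrq
        (Pool.Agent.H29.TF.aesm_P hzm.aestronglyMeasurable)
        (fun y => Pool.Agent.H29.TF.abs_P_le hqs hz0 y) x
    have hi0 : Integrable (fun y => hk (r - q) (x - y) * z q y) :=
      Pool.Agent.H29.TF.integrable_hk_mul hrq (continuous_slice hzc hqt).aestronglyMeasurable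
        (hzM q ⟨hqt.1.le, hqt.2⟩) x
    have hi2 : Integrable (fun y => hk (r - q) (x - y) *
        ∫ p in s..q, 1 * P (q - p) (tr s t h p) y) := by
      refine (hi0.sub hi1).congr (Eventually.of_forall fun y => ?_)
      simp only [Pi.sub_apply]
      rw [e1 y]; ring
    have e2 : z q = fun y => P (q - s) (z s) y + ∫ p in s..q, 1 * P (q - p) (tr s t h p) y :=
      funext e1
    rw [e2, Pool.Agent.H29.TF.P_add x hi1 hi2,
      Pool.Agent.H29.TF.P_P hrq hqs hzm.aestronglyMeasurable hz0,
      fub hrq hq.1.le hHm hHb measurable_const (C := 1) (fun _ _ => by simp) x]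
    have e3 : r - q + (q - s) = r - s := by ring
    rw [e3]
    show _ = F0 + ∫ p in s..q, G p
    congr 1
    apply integral_congr_Ioo' hq.1.le
    intro p hp
    rw [one_mul, hGH p ⟨hp.1, hp.2.le.trans hq.2.le⟩]
    have e4 : r - q + (q - p) = r - p := by ring
    rw [e4]
  have hFc : ContinuousOn F (Icc s r) := by
    have := intervalIntegral.continuousOn_primitive_interval (μ := volume) (f := G) (a := s) (b := r)
      (by rw [uIcc_of_le hsr.le, integrableOn_Icc_iff_integrableOn_Ioc]
          exact (intervalIntegrable_iff_integrableOn_Ioc_of_le hsr.le).1 hGi)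
    rw [uIcc_of_le hsr.le] at this
    exact continuousOn_const.add this
  have hGc : ∀ q ∈ Ioo s r, ContinuousAt G q := by
    intro q hq
    have hn : Ioo s r ∈ 𝓝 q := Ioo_mem_nhds hq.1 hq.2
    apply contAt_P (M := M) hq.2
    · filter_upwards [hn] with p hp
      exact (continuous_slice hhc ⟨hp.1, hp.2.le.trans hr.2⟩).aestronglyMeasurable
    · filter_upwards [hn] with p hp
      exact hhM p ⟨hp.1.le, hp.2.le.trans hr.2⟩
    · intro y
      have h1 : ContinuousAt (fun p : ℝ × E N => h p.1 p.2) (q, y) := by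
        apply (hhc (q, y) ⟨⟨hq.1, hq.2.le.trans hr.2⟩, mem_univ _⟩).continuousAt
        apply prod_mem_nhds _ univ_mem
        exact Ioc_mem_nhds hq.1 (hq.2.trans_le hr.2)
      have h2 : ContinuousAt (fun p : ℝ => ((p, y) : ℝ × E N)) q := by fun_prop
      exact ContinuousAt.comp (f := fun p : ℝ => ((p, y) : ℝ × E N)) h1 h2
  have hFd : ∀ q ∈ Ioo s r, HasDerivAt F (G q) q := by
    intro q hq
    apply HasDerivAt.const_add
    apply intervalIntegral.integral_hasDerivAt_right
    · apply hGi.mono_set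
      rw [uIcc_of_le hq.1.le, uIcc_of_le hsr.le]; exact Icc_subset_Icc_right hq.2.le
    · have h1 : ContinuousOn G (Ioo s r) := fun p hp => (hGc p hp).continuousWithinAt
      exact h1.stronglyMeasurableAtFilter isOpen_Ioo q hq
    · exact hGc q hq
  have hFi : IntervalIntegrable F volume s r := by
    apply ContinuousOn.intervalIntegrable
    rwa [uIcc_of_le hsr.le]
  have hexpc : ContinuousOn (fun q => Real.exp (-(Λ * (r - q)))) (uIcc s r) := by fun_prop
  have hΦd : ∀ q ∈ Ioo s r, HasDerivAt (fun q => Real.exp (-(Λ * (r - q))) * F q)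
      (Real.exp (-(Λ * (r - q))) * (G q + Λ * F q)) q := by
    intro q hq
    have h2 : HasDerivAt (fun q => -(Λ * (r - q))) Λ q := by
      have h3 := (((hasDerivAt_id q).const_sub r).const_mul Λ).fun_neg
      simpa using h3
    have h1 := h2.exp.mul (hFd q hq)
    refine h1.congr_deriv ?_
    ring
  have hI := intervalIntegral.integral_eq_sub_of_hasDerivAt_of_le hsr.le
    (f := fun q => Real.exp (-(Λ * (r - q))) * F q)
    (ContinuousOn.mul (by fun_prop) hFc) hΦd
    ((hGi.add (hFi.const_mul Λ)).continuousOn_mul hexpc)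
  have e5 : ∫ q in s..r, Real.exp (-(Λ * (r - q))) * P (r - q) (fun y => h q y + Λ * z q y) x =
      ∫ q in s..r, Real.exp (-(Λ * (r - q))) * (G q + Λ * F q) := by
    apply integral_congr_Ioo' hsr.le
    intro q hq
    simp only
    have hqt : q ∈ Ioc s t := ⟨hq.1, hq.2.le.trans hr.2⟩
    have hrq : 0 < r - q := sub_pos.2 hq.2
    have hi1 : Integrable (fun y => hk (r - q) (x - y) * h q y) :=
      Pool.Agent.H29.TF.integrable_hk_mul hrq (continuous_slice hhc hqt).aestronglyMeasurable
        (hhM q ⟨hqt.1.le, hqt.2⟩) x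
    have hi0 : Integrable (fun y => hk (r - q) (x - y) * z q y) :=
      Pool.Agent.H29.TF.integrable_hk_mul hrq (continuous_slice hzc hqt).aestronglyMeasurable
        (hzM q ⟨hqt.1.le, hqt.2⟩) x
    have hi2 : Integrable (fun y => hk (r - q) (x - y) * (Λ * z q y)) := by
      refine (hi0.const_mul Λ).congr (Eventually.of_forall fun y => ?_)
      ring
    rw [Pool.Agent.H29.TF.P_add x hi1 hi2, Pool.Agent.H29.TF.P_const_mul, hFA q hq]
  rw [e5, hI]
  have hFr : F r = z r x := by
    rw [hduh r hr x]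
  simp only [sub_self, mul_zero, neg_zero, Real.exp_zero, one_mul]
  rw [hFr]
  have hFs : F s = F0 := by simp [hF]
  rw [hFs]
  ring

end Pool.Agent.H3.RD
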