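import Mathlib
import Pool.Agent.H82.RD.Targets
import Pool.Agent.H82.RD.Basic

/-!
# The zero lemma: reduction to the normalised form (row ZLM)
-/

set_option autoImplicit false

open MvPolynomial Pool.Agent.H82.RD

namespace Pool.Agent.H3.RD

theorem pf_ZLM (hZLN : T_ZLN) (hZTV : T_ZTV) : T_ZLM := by
  intro k _ _ u A B ι S w y P hA hB hP0 hPV hy hroot hev
  rcases S.eq_empty_or_nonempty with rfl | ⟨s0, hs0⟩
  · left; simp
  have hy0 := hy s0 hs0
  obtain ⟨P', hP'⟩ : ∃ P', P' = tr ((u + 1 : ℕ) • w s0) ((y s0) ^ (u + 1)) P := ⟨_, rfl⟩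
  have hP'0 : P' ≠ 0 := by
    intro h
    apply hP0
    apply (tr_bijective ((u + 1 : ℕ) • w s0) (pow_ne_zero (u + 1) hy0)).1
    rw [← hP', h, map_zero]
  have hP'V : P' ∈ VV k u A B := hP' ▸ hZTV k u A B _ _ P hPV
  have h1 : ∀ s ∈ S, ∀ s' ∈ S, s ≠ s' → ∀ n : ℕ, 1 ≤ n →
      (y s / y s0) ^ n ≠ (y s' / y s0) ^ n := by
    intro s hs s' hs' hne n hn h
    apply hroot s hs s' hs' hne n hn
    rw [div_pow, div_pow] at h
    exact (div_left_inj' (pow_ne_zero n hy0)).1 h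
  have h2 : ∀ g : Fin (u + 1) → ι, (∀ i, g i ∈ S) →
      ev (∑ i, (w (g i) - w s0)) (∏ i, y (g i) / y s0) P' = 0 := by
    intro g hg
    rw [hP', ev_tr]
    have e1 : ∑ i, (w (g i) - w s0) + (u + 1 : ℕ) • w s0 = ∑ i, w (g i) := by
      rw [Finset.sum_sub_distrib]; simp
    have e2 : (∏ i, y (g i) / y s0) * (y s0) ^ (u + 1) = ∏ i, y (g i) := by
      rw [Finset.prod_div_distrib, Finset.prod_const, Finset.card_univ, Fintype.card_fin]
      exact div_mul_cancel₀ _ (pow_ne_zero (u + 1) hy0)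
    rw [e1, e2]
    exact hev g hg
  rcases hZLN k u A B ι S (fun s => w s - w s0) (fun s => y s / y s0) P' s0 hA hB hP'0 hP'V hs0
    (sub_self _) (div_self hy0) (fun s hs => div_ne_zero (hy s hs) hy0) h1 h2 with h | ⟨U, hU, h⟩
  · exact Or.inl h
  · refine Or.inr ⟨U, hU, ?_⟩
    have himg : ((fun s => U.mkQ (w s - w s0)) '' (S : Set ι)) =
        (fun x => x - U.mkQ (w s0)) '' ((fun s => U.mkQ (w s)) '' (S : Set ι)) := by
      rw [Set.image_image]
      simp only [map_sub]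
    rw [himg, Set.ncard_image_of_injective _ (sub_left_injective)] at h
    exact h

end Pool.Agent.H3.RD
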